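import Mathlib

set_option autoImplicit false

namespace Pool.Agent.helper62.CP

open Complex

/-- A planar Brouwer-type statement: a continuous map which is `ρ`-close to the identity on the
closed disc of radius `ρ` about `p` hits `p`. -/
theorem exists_eq_of_near_id (T : ℂ → ℂ) (hT : Continuous T) (p : ℂ) (r : ℝ) (hr : 0 < r)
    (h : ∀ x, ‖x - p‖ ≤ r → ‖T x - x‖ < r) : ∃ x, ‖x - p‖ ≤ r ∧ T x = p := by
  by_contra hcon
  push Not at hcon
  -- radial retraction on the unit disc
  let ret : ℂ → ℂ := fun x => x / (max 1 ‖x‖ : ℝ)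
  have hretc : Continuous ret := by
    refine continuous_id.div (by fun_prop) ?_
    intro x
    have : (0 : ℝ) < max 1 ‖x‖ := lt_of_lt_of_le one_pos (le_max_left _ _)
    exact_mod_cast this.ne'
  have hret1 : ∀ x, ‖ret x‖ ≤ 1 := by
    intro x
    have h0 : (0 : ℝ) < max 1 ‖x‖ := lt_of_lt_of_le one_pos (le_max_left _ _)
    simp only [ret, norm_div]
    rw [Complex.norm_real, Real.norm_of_nonneg h0.le, div_le_one h0]
    exact le_max_right _ _
  have hret2 : ∀ x, ‖x‖ = 1 → ret x = x := by
    intro x hx
    simp [ret, hx]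
  let G : ℂ → ℂ := fun x => T (p + r * ret x) - p
  have hG : Continuous G := by fun_prop
  have hG0 : ∀ x, G x ≠ 0 := by
    intro x hx
    refine hcon (p + r * ret x) ?_ (sub_eq_zero.1 hx)
    have : ‖(r : ℂ) * ret x‖ ≤ r := by
      rw [norm_mul, Complex.norm_real, Real.norm_of_nonneg hr.le]
      nlinarith [hret1 x]
    simpa using this
  have hsc : IsSimplyConnected (Set.univ : Set ℂ) := by
    have : ContractibleSpace (Set.univ : Set ℂ) := convex_univ.contractibleSpace ⟨0, trivial⟩
    exact SimplyConnectedSpace.ofContractible _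
  obtain ⟨f, hfc, hf⟩ := Complex.exists_continuousOn_eqOn_exp_comp hsc isOpen_univ
    (g := G) hG.continuousOn (by rintro ⟨x, -, hx⟩; exact hG0 x hx)
  have hfc' : Continuous f := by simpa using hfc
  let F : ℝ → ℝ := fun t => (f (exp (t * I))).im - t
  have hF : Continuous F := by
    fun_prop
  have hpos : ∀ t, 0 < Real.cos (F t) := by
    intro t
    have h1 : exp (f (exp (t * I))) = T (p + r * exp (t * I)) - p := by
      have := hf (Set.mem_univ (exp (t * I)))
      simp only [Function.comp] at this
      rw [this]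
      simp only [G]
      rw [hret2 _ (Complex.norm_exp_ofReal_mul_I t)]
    set z := exp (t * I) with hz
    have hzn : ‖z‖ = 1 := Complex.norm_exp_ofReal_mul_I t
    have hlt : ‖T (p + r * z) - (p + r * z)‖ < r := by
      apply h
      simp [hzn, abs_of_pos hr]
    have h2 : exp (f z - t * I) = r + exp (-(t * I)) * (T (p + r * z) - (p + r * z)) := by
      rw [sub_eq_add_neg, exp_add, h1]
      have h3 : exp (-(t * I)) * z = 1 := by
        rw [hz, ← exp_add]; simp
      linear_combination (r : ℂ) * h3
    have h4 : 0 < (exp (f z - t * I)).re := by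
      rw [h2]
      have h5 : ‖exp (-(t * I)) * (T (p + r * z) - (p + r * z))‖ < r := by
        rw [norm_mul]
        have : ‖exp (-(t * I))‖ = 1 := by
          have := Complex.norm_exp_ofReal_mul_I (-t)
          simpa using this
        rw [this, one_mul]
        exact hlt
      have h6 := Complex.abs_re_le_norm (exp (-(t * I)) * (T (p + r * z) - (p + r * z)))
      have h7 := neg_abs_le (exp (-(t * I)) * (T (p + r * z) - (p + r * z))).re
      rw [add_re, ofReal_re]
      linarith
    rw [exp_re] at h4
    have h8 : (f z - t * I).im = F t := by simp [F, hz]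
    rw [h8] at h4
    exact pos_of_mul_pos_right h4 (Real.exp_pos _).le
  have hper : F (2 * Real.pi) = F 0 - 2 * Real.pi := by
    simp only [F]
    have : exp (((2 * Real.pi : ℝ) : ℂ) * I) = exp (((0 : ℝ) : ℂ) * I) := by
      push_cast
      rw [exp_two_pi_mul_I]; simp
    rw [this]
    ring
  have hivt : F 0 - Real.pi ∈ Set.uIcc (F 0) (F (2 * Real.pi)) := by
    rw [hper, Set.mem_uIcc]
    right
    constructor <;> linarith [Real.pi_pos]
  obtain ⟨t, -, ht⟩ := intermediate_value_uIcc (hF.continuousOn (s := Set.uIcc 0 (2 * Real.pi))) hivt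
  have := hpos t
  rw [ht, Real.cos_sub_pi] at this
  linarith [hpos 0]

end Pool.Agent.helper62.CP
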