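import Mathlib
import Pool.Agent.helper62.CPBrouwer

set_option autoImplicit false

namespace Pool.Agent.helper62.CP

/-- `g` is a bijection of `Z ⊆ ℤ²` onto the subgroup `L` of the plane, bi-Lipschitz with constant
`K`, and `L` is `K`-relatively dense. -/
structure BL (K : ℝ) (Z : Set (ℤ × ℤ)) (g : ℤ × ℤ → ℂ) (L : AddSubgroup ℂ) : Prop where
  bij : Set.BijOn g Z (L : Set ℂ)
  up : ∀ m ∈ Z, ∀ m' ∈ Z, ‖g m - g m'‖ ≤ K * dist m m'
  lo : ∀ m ∈ Z, ∀ m' ∈ Z, dist m m' ≤ K * ‖g m - g m'‖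
  cov : ∀ x : ℂ, ∃ l ∈ L, ‖x - l‖ ≤ K

/-- `st` moves every lattice point by at most one to a point of `Z`. -/
structure Star (Z : Set (ℤ × ℤ)) (st : ℤ × ℤ → ℤ × ℤ) : Prop where
  mem : ∀ q, st q ∈ Z
  near : ∀ q, dist (st q) q ≤ 1
  fix : ∀ q ∈ Z, st q = q

lemma one_le_dist {q q' : ℤ × ℤ} (h : q ≠ q') : 1 ≤ dist q q' := by
  rw [Prod.dist_eq]
  by_cases h1 : q.1 = q'.1
  · have h2 : q.2 ≠ q'.2 := fun h2 => h (Prod.ext h1 h2)
    exact le_max_of_le_right (Int.pairwise_one_le_dist h2)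
  · exact le_max_of_le_left (Int.pairwise_one_le_dist h1)

theorem area_comp (K : ℝ) (hK : 1 ≤ K) : ∃ C : ℝ, 0 < C ∧ ∀ (Z : Set (ℤ × ℤ))
    (g : ℤ × ℤ → ℂ) (L : AddSubgroup ℂ) (st : ℤ × ℤ → ℤ × ℤ), BL K Z g L → Star Z st →
    ∀ (S : Set (ℤ × ℤ)) (t : ℤ × ℤ) (W : ℂ) (D : ℝ), 1 ≤ D →
    (∀ z ∈ S, ‖g (st (z + t)) - g (st z) - W‖ ≤ D) →
    ∃ ψ : ℤ × ℤ → ℤ × ℤ, Set.InjOn ψ Z ∧
      ∀ z ∈ Z, (∀ q, dist q z ≤ C * D → q ∈ S) → ψ z ∈ Z ∧ ψ z - t ∈ S := by
  have hK0 : 0 < K := by linarith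
  set C1 : ℝ := (lipschitzExtensionConstant ℂ : ℝ) * (3 * K ^ 2) with hC1
  have hC1pos : 0 ≤ C1 := by positivity
  refine ⟨K * (1 + C1 * K + 3 * K + 1) + C1 * K ^ 2 + 1, by positivity, ?_⟩
  intro Z g L st hBL hst S t W D hD hS
  obtain ⟨W', hW', hWW⟩ := hBL.cov W
  let h : ℂ → ℤ × ℤ := Function.invFunOn g Z
  have hmem : ∀ l ∈ L, h l ∈ Z := fun l hl => Function.invFunOn_mem (hBL.bij.surjOn hl)
  have hgh : ∀ l ∈ L, g (h l) = l := fun l hl => Function.invFunOn_eq (hBL.bij.surjOn hl)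
  have hgL : ∀ z ∈ Z, g z ∈ L := fun z hz => hBL.bij.mapsTo hz
  refine ⟨fun z => h (g z + W'), ?_, ?_⟩
  · intro z hz z' hz' he
    have h1 := congrArg g he
    simp only at h1
    rw [hgh _ (L.add_mem (hgL z hz) hW'), hgh _ (L.add_mem (hgL z' hz') hW')] at h1
    exact hBL.bij.injOn hz hz' (add_right_cancel h1)
  -- the comparison map
  let T0 : ℂ → ℂ := fun l => g (st (h (l - W') + t))
  have hKK : ((3 * K ^ 2).toNNReal : ℝ) = 3 * K ^ 2 := Real.coe_toNNReal _ (by positivity)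
  have hLip : LipschitzOnWith (3 * K ^ 2).toNNReal T0 (L : Set ℂ) := by
    apply LipschitzOnWith.of_dist_le_mul
    intro l hl m hm
    rw [hKK, dist_eq_norm, dist_eq_norm]
    by_cases hlm : l = m
    · simp [hlm, T0]
    have hl' := L.sub_mem hl hW'
    have hm' := L.sub_mem hm hW'
    have hne : h (l - W') ≠ h (m - W') := by
      intro he
      have := congrArg g he
      rw [hgh _ hl', hgh _ hm'] at this
      exact hlm (sub_left_injective this)
    have h1 := one_le_dist hne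
    have h2 : dist (h (l - W')) (h (m - W')) ≤ K * ‖l - m‖ := by
      have := hBL.lo _ (hmem _ hl') _ (hmem _ hm')
      rw [hgh _ hl', hgh _ hm'] at this
      simpa using this
    have h3 : dist (st (h (l - W') + t)) (st (h (m - W') + t)) ≤
        dist (h (l - W')) (h (m - W')) + 2 := by
      have a1 := dist_triangle4 (st (h (l - W') + t)) (h (l - W') + t) (h (m - W') + t)
        (st (h (m - W') + t))
      have a2 := hst.near (h (l - W') + t)
      have a3 := hst.near (h (m - W') + t)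
      rw [dist_comm] at a3
      rw [dist_add_right] at a1
      linarith
    have h4 := hBL.up _ (hst.mem (h (l - W') + t)) _ (hst.mem (h (m - W') + t))
    calc ‖T0 l - T0 m‖ ≤ K * dist (st (h (l - W') + t)) (st (h (m - W') + t)) := h4
      _ ≤ K * (3 * dist (h (l - W')) (h (m - W'))) := by gcongr; linarith
      _ ≤ K * (3 * (K * ‖l - m‖)) := by gcongr
      _ = 3 * K ^ 2 * ‖l - m‖ := by ring
  obtain ⟨T, hT, hTeq⟩ := hLip.extend_finite_dimension
  have hTdist : ∀ x y, ‖T x - T y‖ ≤ C1 * ‖x - y‖ := by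
    intro x y
    have := hT.dist_le_mul x y
    rw [dist_eq_norm, dist_eq_norm, NNReal.coe_mul, hKK] at this
    exact this
  intro z hz hdeep
  set p := g z + W' with hp
  have hpL : p ∈ L := L.add_mem (hgL z hz) hW'
  refine ⟨hmem p hpL, ?_⟩
  set r0 : ℝ := D + C1 * K + 2 * K + 1 with hr0
  have hbound : K * (r0 + K) + C1 * K ^ 2 + 1 ≤
      (K * (1 + C1 * K + 3 * K + 1) + C1 * K ^ 2 + 1) * D := by
    have e1 : 0 ≤ (K * (C1 * K + 3 * K + 1) + C1 * K ^ 2 + 1) * (D - 1) := by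
      apply mul_nonneg (by positivity) (by linarith)
    nlinarith [e1]
  have hr0pos : 0 < r0 := by positivity
  have hnear : ∀ l ∈ L, ‖l - p‖ ≤ r0 + K → dist (h (l - W')) z ≤ K * (r0 + K) := by
    intro l hl hlp
    have hl' := L.sub_mem hl hW'
    have h1 := hBL.lo _ (hmem _ hl') _ hz
    rw [hgh _ hl'] at h1
    have h2 : l - W' - g z = l - p := by rw [hp]; ring
    rw [h2] at h1
    exact h1.trans (by gcongr)
  have hclose : ∀ l ∈ L, ‖l - p‖ ≤ r0 + K → ‖T0 l - l‖ ≤ D + K := by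
    intro l hl hlp
    have hl' := L.sub_mem hl hW'
    have hzS : h (l - W') ∈ S := by
      apply hdeep
      refine (hnear l hl hlp).trans ?_
      have : 0 ≤ C1 * K ^ 2 + 1 := by positivity
      linarith
    have h1 := hS _ hzS
    rw [hst.fix _ (hmem _ hl'), hgh _ hl'] at h1
    have h2 : T0 l - l = (T0 l - (l - W') - W) + (W - W') := by ring
    rw [h2]
    exact (norm_add_le _ _).trans (add_le_add h1 hWW)
  obtain ⟨x, hx, hTx⟩ := exists_eq_of_near_id T hT.continuous p r0 hr0pos (by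
    intro x hx
    obtain ⟨l, hl, hxl⟩ := hBL.cov x
    have hlp : ‖l - p‖ ≤ r0 + K := by
      have : l - p = (x - p) - (x - l) := by ring
      rw [this]
      exact (norm_sub_le _ _).trans (add_le_add hx hxl)
    have h1 := hclose l hl hlp
    have h2 := hTdist x l
    have h3 : T x - x = (T x - T l) + (T0 l - l) - (x - l) := by
      rw [hTeq hl]; ring
    rw [h3]
    have h4 : C1 * ‖x - l‖ ≤ C1 * K := by gcongr
    calc ‖(T x - T l) + (T0 l - l) - (x - l)‖ ≤ ‖T x - T l‖ + ‖T0 l - l‖ + ‖x - l‖ :=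
          (norm_sub_le _ _).trans (by gcongr; exact norm_add_le _ _)
      _ ≤ C1 * K + (D + K) + K := by linarith
      _ < r0 := by rw [hr0]; linarith)
  obtain ⟨l, hl, hxl⟩ := hBL.cov x
  have hlp : ‖l - p‖ ≤ r0 + K := by
    have : l - p = (x - p) - (x - l) := by ring
    rw [this]
    exact (norm_sub_le _ _).trans (add_le_add hx hxl)
  have hl' := L.sub_mem hl hW'
  apply hdeep
  have h1 : ‖T0 l - p‖ ≤ C1 * K := by
    have h2 := hTdist l x
    rw [hTx, ← hTeq hl] at h2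
    refine h2.trans ?_
    rw [norm_sub_rev]
    gcongr
  have h2 : dist (st (h (l - W') + t)) (h p) ≤ K * (C1 * K) := by
    have := hBL.lo _ (hst.mem (h (l - W') + t)) _ (hmem p hpL)
    rw [hgh p hpL] at this
    exact this.trans (by gcongr)
  have h3 := hst.near (h (l - W') + t)
  have h4 := hnear l hl hlp
  have h5 : dist (h p - t) z ≤ dist (h p) (h (l - W') + t) + dist (h (l - W')) z := by
    have e : dist (h p - t) (h (l - W')) = dist (h p) (h (l - W') + t) := by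
      rw [← dist_add_right (h p - t) (h (l - W')) t, sub_add_cancel]
    rw [← e]
    exact dist_triangle _ _ _
  have h6 : dist (h p) (h (l - W') + t) ≤
      dist (h p) (st (h (l - W') + t)) + dist (st (h (l - W') + t)) (h (l - W') + t) :=
    dist_triangle _ _ _
  rw [dist_comm (h p) (st _)] at h6
  nlinarith [hbound]

end Pool.Agent.helper62.CP
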