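import Mathlib
import Pool.Agent.helper62.CPArea

set_option autoImplicit false

namespace Pool.Agent.helper62.CP

open Classical in
/-- number of points of `Z` in the square `[x,x+r) × [y,y+r)`. -/
noncomputable def cnt (Z : Set (ℤ × ℤ)) (x y : ℤ) (r : ℕ) : ℕ :=
  ((Finset.Ico x (x + r) ×ˢ Finset.Ico y (y + r)).filter (· ∈ Z)).card

/-- the square `[x,x+r) × [y,y+r)`. -/
def sq (x y : ℤ) (r : ℕ) : Set (ℤ × ℤ) := {q | x ≤ q.1 ∧ q.1 < x + r ∧ y ≤ q.2 ∧ q.2 < y + r}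

lemma dist_le_iff {p q : ℤ × ℤ} {a : ℝ} : dist p q ≤ a ↔
    |((p.1 : ℝ) - q.1)| ≤ a ∧ |((p.2 : ℝ) - q.2)| ≤ a := by
  rw [Prod.dist_eq, max_le_iff, Int.dist_eq, Int.dist_eq]

theorem square_comp (K : ℝ) (hK : 1 ≤ K) : ∃ C : ℝ, 0 < C ∧ ∀ (Z : Set (ℤ × ℤ))
    (g : ℤ × ℤ → ℂ) (L : AddSubgroup ℂ) (st : ℤ × ℤ → ℤ × ℤ), BL K Z g L → Star Z st →
    ∀ (x y : ℤ) (r : ℕ) (s : ℤ) (W : ℂ) (D : ℝ), 1 ≤ D →
    (∀ z ∈ sq x y r, ‖g (st (z + (s, 0))) - g (st z) - W‖ ≤ D) →
    (cnt Z x y r : ℝ) ≤ cnt Z (x + s) y r + C * D * r := by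
  obtain ⟨C, hC, hmain⟩ := area_comp K hK
  refine ⟨4 * (C + 1), by positivity, ?_⟩
  intro Z g L st hBL hst x y r s W D hD hS
  classical
  obtain ⟨ψ, hψ, hψS⟩ := hmain Z g L st hBL hst (sq x y r) (s, 0) W D hD hS
  set ρ : ℕ := ⌈C * D⌉₊ with hρ
  have hρ1 : C * D ≤ ρ := Nat.le_ceil _
  have hρ2 : (ρ : ℝ) ≤ (C + 1) * D := by
    have := (Nat.ceil_lt_add_one (show 0 ≤ C * D by positivity)).le
    rw [← hρ] at this
    nlinarith
  set S := Finset.Ico x (x + r) ×ˢ Finset.Ico y (y + r) with hSdef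
  set S' := Finset.Ico (x + s) (x + s + r) ×ˢ Finset.Ico y (y + r) with hS'def
  set I := Finset.Ico (x + ρ) (x + r - ρ) ×ˢ Finset.Ico (y + ρ) (y + r - ρ) with hI
  have hcardS : S.card = r * r := by
    simp [hSdef]
  have hcardI : I.card = (r - 2 * ρ) * (r - 2 * ρ) := by
    rw [hI, Finset.card_product, Int.card_Ico, Int.card_Ico]
    congr 1 <;> omega
  have hIS : I ⊆ S := by
    intro q hq
    simp only [hI, hSdef, Finset.mem_product, Finset.mem_Ico] at hq ⊢
    omega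
  have h1 : (I.filter (· ∈ Z)).card ≤ (S'.filter (· ∈ Z)).card := by
    refine Finset.card_le_card_of_injOn ψ ?_ ?_
    · intro q hq
      simp only [Finset.coe_filter, Set.mem_ofPred_eq] at hq
      obtain ⟨hqI, hqZ⟩ := hq
      simp only [hI, Finset.mem_product, Finset.mem_Ico] at hqI
      have := hψS q hqZ (by
        intro q' hq'
        have h2 := dist_le_iff.1 (hq'.trans hρ1)
        have h3 : |q'.1 - q.1| ≤ (ρ : ℤ) := by exact_mod_cast h2.1
        have h4 : |q'.2 - q.2| ≤ (ρ : ℤ) := by exact_mod_cast h2.2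
        rw [abs_le] at h3 h4
        simp only [sq, Set.mem_ofPred_eq]
        omega)
      obtain ⟨h5, h6⟩ := this
      simp only [sq, Set.mem_ofPred_eq, Prod.fst_sub, Prod.snd_sub] at h6
      simp only [Finset.coe_filter, Set.mem_ofPred_eq, hS'def, Finset.mem_product, Finset.mem_Ico]
      refine ⟨?_, h5⟩
      omega
    · intro q hq q' hq' he
      simp only [Finset.coe_filter, Set.mem_ofPred_eq] at hq hq'
      exact hψ hq.2 hq'.2 he
  have h2 : (S.filter (· ∈ Z)).card ≤ (I.filter (· ∈ Z)).card + (S \ I).card := by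
    rw [← Finset.card_union_of_disjoint]
    · apply Finset.card_le_card
      intro q hq
      simp only [Finset.mem_filter, Finset.mem_union, Finset.mem_sdiff] at hq ⊢
      by_cases hqI : q ∈ I
      · exact Or.inl ⟨hqI, hq.2⟩
      · exact Or.inr ⟨hq.1, hqI⟩
    · rw [Finset.disjoint_left]
      intro q hq hq'
      simp only [Finset.mem_filter, Finset.mem_sdiff] at hq hq'
      exact hq'.2 hq.1
  have h3 : (S \ I).card = r * r - (r - 2 * ρ) * (r - 2 * ρ) := by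
    rw [Finset.card_sdiff_of_subset hIS, hcardS, hcardI]
  have h4 : (((S \ I).card : ℕ) : ℝ) ≤ 4 * ρ * r := by
    rw [h3]
    have : r * r - (r - 2 * ρ) * (r - 2 * ρ) ≤ 4 * ρ * r := by
      rcases le_total (2 * ρ) r with h | h
      · obtain ⟨k, rfl⟩ := Nat.exists_eq_add_of_le h
        have e : 2 * ρ + k - 2 * ρ = k := by omega
        rw [e, tsub_le_iff_right]
        nlinarith
      · have e : r - 2 * ρ = 0 := by omega
        rw [e]
        simp only [mul_zero, tsub_zero]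
        nlinarith
    exact_mod_cast this
  have h5 : (cnt Z x y r : ℝ) ≤ cnt Z (x + s) y r + (S \ I).card := by
    have e1 : cnt Z x y r = (S.filter (· ∈ Z)).card := by
      unfold cnt
      rw [hSdef]
    have e2 : cnt Z (x + s) y r = (S'.filter (· ∈ Z)).card := by
      unfold cnt
      rw [hS'def]
    have : cnt Z x y r ≤ cnt Z (x + s) y r + (S \ I).card := by
      rw [e1, e2]
      exact h2.trans (by gcongr)
    exact_mod_cast this
  have h6 : (4 : ℝ) * ρ * r ≤ 4 * (C + 1) * D * r := by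
    have : (0 : ℝ) ≤ r := Nat.cast_nonneg r
    nlinarith
  linarith

theorem pair_comp (K : ℝ) (hK : 1 ≤ K) : ∃ C : ℝ, 0 < C ∧ ∀ (Z : Set (ℤ × ℤ))
    (g : ℤ × ℤ → ℂ) (L : AddSubgroup ℂ) (st : ℤ × ℤ → ℤ × ℤ), BL K Z g L → Star Z st →
    ∀ (x y : ℤ) (r : ℕ) (W : ℂ) (D : ℝ), 1 ≤ D →
    (∀ z ∈ sq x y r, ‖g (st (z + ((r : ℤ), 0))) - g (st z) - W‖ ≤ D) →
    |(cnt Z x y r : ℝ) - cnt Z (x + r) y r| ≤ C * D * r := by
  obtain ⟨C, hC, hmain⟩ := square_comp K hK
  refine ⟨C, hC, ?_⟩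
  intro Z g L st hBL hst x y r W D hD hS
  have h1 := hmain Z g L st hBL hst x y r r W D hD hS
  have h2 := hmain Z g L st hBL hst (x + r) y r (-r) (-W) D hD (by
    intro z hz
    simp only [sq, Set.mem_ofPred_eq] at hz
    have h3 := hS (z + (-(r : ℤ), 0)) (by
      simp only [sq, Set.mem_ofPred_eq, Prod.fst_add, Prod.snd_add]
      omega)
    have e : z + (-(r : ℤ), 0) + ((r : ℤ), 0) = z := by
      ext <;> simp
    rw [e] at h3
    rw [← norm_neg] at h3
    have e' : -(g (st z) - g (st (z + (-(r : ℤ), 0))) - W) =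
        g (st (z + (-(r : ℤ), 0))) - g (st z) - -W := by ring
    rwa [e'] at h3)
  have e : x + (r : ℤ) + -r = x := by ring
  rw [e] at h2
  rw [abs_le]
  constructor <;> linarith

end Pool.Agent.helper62.CP
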