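import Mathlib
import Pool.Agent.helper62.CPStep

set_option autoImplicit false

namespace Pool.Agent.helper62.CP

/-- the scales `r_i` -/
def rr (r0 L i : ℕ) : ℕ := r0 * L ^ (2 * i)

/-- the heights `h_i` -/
def hh (r0 L i : ℕ) : ℕ := r0 * L ^ (2 * i + 1)

/-- the multi-scale checkerboard pattern -/
def Pat (r0 L m : ℕ) : Set (ℤ × ℤ) :=
  {q | ∃ i < m, q.2 % (hh r0 L i : ℤ) < rr r0 L i ∧
    (∀ i' < i, (rr r0 L i' : ℤ) ≤ q.2 % (hh r0 L i' : ℤ)) ∧ Even (q.1 / (rr r0 L i : ℤ))}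

lemma hh_eq (r0 L i : ℕ) : hh r0 L i = L * rr r0 L i := by
  unfold hh rr; ring

lemma rr_succ (r0 L i : ℕ) : rr r0 L (i + 1) = L * hh r0 L i := by
  unfold hh rr; ring

lemma rr_pos {r0 L : ℕ} (h0 : 0 < r0) (hL : 0 < L) (i : ℕ) : 0 < rr r0 L i := by
  unfold rr; positivity

lemma hh_pos {r0 L : ℕ} (h0 : 0 < r0) (hL : 0 < L) (i : ℕ) : 0 < hh r0 L i := by
  unfold hh; positivity

/-- count of points congruent to something small -/
lemma count_mod (h r n : ℕ) (hh : 0 < h) (a : ℤ) :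
    ((Finset.Ico (a * h) (a * h + n * h)).filter (fun y : ℤ => y % (h : ℤ) < r)).card ≤ n * r := by
  have : (Finset.Ico a (a + n) ×ˢ Finset.Ico (0 : ℤ) r).card = n * r := by
    simp
  rw [← this]
  have hhZ : (0 : ℤ) < h := by exact_mod_cast hh
  apply Finset.card_le_card_of_injOn (fun y : ℤ => (y / (h : ℤ), y % (h : ℤ)))
  · intro y hy
    simp only [Finset.coe_filter, Finset.mem_Ico, Set.mem_ofPred_eq] at hy
    obtain ⟨⟨h1, h2⟩, h3⟩ := hy
    simp only [Finset.coe_product, Finset.coe_Ico, Set.mem_prod, Set.mem_Ico]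
    refine ⟨⟨?_, ?_⟩, Int.emod_nonneg _ hhZ.ne', h3⟩
    · exact (Int.le_ediv_iff_mul_le hhZ).2 h1
    · apply Int.ediv_lt_of_lt_mul hhZ
      linarith
  · intro y _ y' _ he
    simp only [Prod.mk.injEq] at he
    have h1 := Int.mul_ediv_add_emod y h
    have h2 := Int.mul_ediv_add_emod y' h
    rw [← h1, ← h2, he.1, he.2]

open Classical in
/-- rows which belong to strips of lower level -/
noncomputable def low (r0 L i : ℕ) (Y : ℤ) : Finset ℤ :=
  (Finset.Ico (Y * hh r0 L i) (Y * hh r0 L i + rr r0 L i)).filter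
    (fun y => ∃ i' < i, y % (hh r0 L i' : ℤ) < rr r0 L i')

lemma low_card {r0 L : ℕ} (h0 : 0 < r0) (hL : 0 < L) (i : ℕ) (Y : ℤ) :
    (low r0 L i Y).card * L ≤ i * rr r0 L i := by
  classical
  have h1 : low r0 L i Y ⊆ (Finset.range i).biUnion (fun i' =>
      (Finset.Ico (Y * hh r0 L i) (Y * hh r0 L i + rr r0 L i)).filter
        (fun y => y % (hh r0 L i' : ℤ) < rr r0 L i')) := by
    intro y hy
    simp only [low, Finset.mem_filter] at hy
    obtain ⟨hy1, i', hi', hy2⟩ := hy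
    simp only [Finset.mem_biUnion, Finset.mem_range, Finset.mem_filter]
    exact ⟨i', hi', hy1, hy2⟩
  have h2 := (Finset.card_le_card h1).trans Finset.card_biUnion_le
  have h3 : ∀ i' ∈ Finset.range i, ((Finset.Ico (Y * hh r0 L i) (Y * hh r0 L i + rr r0 L i)).filter
        (fun y => y % (hh r0 L i' : ℤ) < rr r0 L i')).card * L ≤ rr r0 L i := by
    intro i' hi'
    obtain ⟨k, rfl⟩ := Nat.exists_eq_add_of_lt (Finset.mem_range.1 hi')
    have e1 : hh r0 L (i' + k + 1) = L ^ (2 * (k + 1)) * hh r0 L i' := by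
      unfold hh; ring
    have e2 : rr r0 L (i' + k + 1) = L ^ (2 * k + 1) * hh r0 L i' := by
      unfold hh rr; ring
    have h4 := count_mod (hh r0 L i') (rr r0 L i') (L ^ (2 * k + 1)) (hh_pos h0 hL i')
      (Y * (L ^ (2 * (k + 1)) : ℕ))
    have e3 : Y * ((L ^ (2 * (k + 1)) : ℕ) : ℤ) * (hh r0 L i' : ℤ) = Y * hh r0 L (i' + k + 1) := by
      rw [e1]; push_cast; ring
    have e4 : ((L ^ (2 * k + 1) : ℕ) : ℤ) * (hh r0 L i' : ℤ) = rr r0 L (i' + k + 1) := by
      rw [e2]; push_cast; ring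
    rw [e3, e4] at h4
    calc _ ≤ L ^ (2 * k + 1) * rr r0 L i' * L := by gcongr
      _ = rr r0 L (i' + k + 1) := by rw [e2, hh_eq]; ring
  calc (low r0 L i Y).card * L ≤ (∑ i' ∈ Finset.range i,
        ((Finset.Ico (Y * hh r0 L i) (Y * hh r0 L i + rr r0 L i)).filter
        (fun y => y % (hh r0 L i' : ℤ) < rr r0 L i')).card) * L := by gcongr
    _ = ∑ i' ∈ Finset.range i, ((Finset.Ico (Y * hh r0 L i) (Y * hh r0 L i + rr r0 L i)).filter
        (fun y => y % (hh r0 L i' : ℤ) < rr r0 L i')).card * L := by rw [Finset.sum_mul]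
    _ ≤ ∑ i' ∈ Finset.range i, rr r0 L i := Finset.sum_le_sum h3
    _ = i * rr r0 L i := by simp

lemma cnt_compl (Z : Set (ℤ × ℤ)) (x y : ℤ) (r : ℕ) : cnt Z x y r + cnt Zᶜ x y r = r * r := by
  classical
  unfold cnt
  have := Finset.card_filter_add_card_filter_not (s := Finset.Ico x (x + r) ×ˢ Finset.Ico y (y + r))
    (fun q => q ∈ Z)
  simp only [Set.mem_compl_iff]
  convert this using 1
  simp

/-- lower bound for the number of points of a horizontally dense set in a square. -/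
lemma cnt_dense (H : Set (ℤ × ℤ)) (T : ℕ) (hT : 0 < T)
    (hH : ∀ x y : ℤ, ∃ l < T, (x + (l : ℤ), y) ∈ H) (x y : ℤ) (k : ℕ) :
    k * (k * T) ≤ cnt H x y (k * T) := by
  classical
  choose l hl hlH using hH
  unfold cnt
  have e : k * (k * T) = (Finset.range k ×ˢ Finset.Ico y (y + (k * T : ℕ))).card := by
    rw [Finset.card_product, Finset.card_range, Int.card_Ico, add_sub_cancel_left,
      Int.toNat_natCast]
  rw [e]
  apply Finset.card_le_card_of_injOn
    (fun q : ℕ × ℤ => (x + q.1 * T + l (x + q.1 * T) q.2, q.2))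
  · intro q hq
    simp only [Finset.coe_product, Finset.coe_range, Finset.coe_Ico, Set.mem_prod, Set.mem_Iio,
      Set.mem_Ico] at hq
    simp only [Finset.coe_filter, Finset.mem_product, Finset.mem_Ico, Set.mem_ofPred_eq]
    have h1 := hl (x + q.1 * T) q.2
    have h2 : (q.1 + 1) * T ≤ k * T := by gcongr; omega
    have h3 : (((q.1 + 1) * T : ℕ) : ℤ) ≤ ((k * T : ℕ) : ℤ) := by exact_mod_cast h2
    have h4 : ((l (x + q.1 * T) q.2 : ℕ) : ℤ) < T := by exact_mod_cast h1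
    have h5 : (0 : ℤ) ≤ (q.1 : ℤ) * T := by positivity
    refine ⟨⟨⟨by omega, ?_⟩, hq.2⟩, hlH _ _⟩
    push_cast at h3 ⊢
    linarith
  · intro q hq q' hq' he
    simp only [Prod.mk.injEq] at he
    obtain ⟨h1, h2⟩ := he
    have h3 : ((l (x + q.1 * T) q.2 : ℕ) : ℤ) < T := by exact_mod_cast hl (x + q.1 * T) q.2
    have h4 : ((l (x + q'.1 * T) q'.2 : ℕ) : ℤ) < T := by exact_mod_cast hl (x + q'.1 * T) q'.2
    have h5 : (0 : ℤ) ≤ ((l (x + q.1 * T) q.2 : ℕ) : ℤ) := by positivity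
    have h6 : (0 : ℤ) ≤ ((l (x + q'.1 * T) q'.2 : ℕ) : ℤ) := by positivity
    have h7 : (q.1 : ℤ) = q'.1 := by
      have hT' : (0 : ℤ) < T := by exact_mod_cast hT
      by_contra hne
      rcases lt_or_gt_of_ne hne with h | h
      · have : ((q.1 : ℤ) + 1) * T ≤ q'.1 * T := by
          apply mul_le_mul_of_nonneg_right _ hT'.le; omega
        linarith
      · have : ((q'.1 : ℤ) + 1) * T ≤ q.1 * T := by
          apply mul_le_mul_of_nonneg_right _ hT'.le; omega
        linarith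
    ext
    · exact_mod_cast h7
    · exact h2

/-- The contrast between the two squares of a pair. -/
theorem contrast {r0 L m T : ℕ} (h0 : 0 < r0) (hL : 0 < L) (hT : 0 < T) (hTr : T ∣ r0)
    (hLm : 4 * m * T ≤ L) (H Z : Set (ℤ × ℤ))
    (hH : ∀ x y : ℤ, ∃ l < T, (x + (l : ℤ), y) ∈ H) (i : ℕ) (hi : i < m) (X Y : ℤ)
    (hZ : ∀ q ∈ sq (2 * X * rr r0 L i) (Y * hh r0 L i) (rr r0 L i) ∪
      sq ((2 * X + 1) * rr r0 L i) (Y * hh r0 L i) (rr r0 L i),
      (q ∈ Z ↔ ¬ (q ∈ H ∧ q ∈ Pat r0 L m))) :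
    1 / (2 * (T : ℝ)) * (rr r0 L i : ℝ) ^ 2 ≤
      |(cnt Z (2 * X * rr r0 L i) (Y * hh r0 L i) (rr r0 L i) : ℝ) -
        cnt Z ((2 * X + 1) * rr r0 L i) (Y * hh r0 L i) (rr r0 L i)| := by
  classical
  set r := rr r0 L i with hr
  set h := hh r0 L i with hh'
  have hrpos : 0 < r := rr_pos h0 hL i
  have hrZ : (0 : ℤ) < r := by exact_mod_cast hrpos
  have hhr : h = L * r := hh_eq r0 L i
  have hrh : r ≤ h := by rw [hhr]; exact Nat.le_mul_of_pos_left _ hL
  have hhZ : (0 : ℤ) < h := by exact_mod_cast lt_of_lt_of_le hrpos hrh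
  set lo := low r0 L i Y with hlo
  have hlocard : lo.card * L ≤ i * r := low_card h0 hL i Y
  have hlomem : ∀ y, y ∈ lo ↔ (Y * h ≤ y ∧ y < Y * h + r) ∧
      ∃ i' < i, y % (hh r0 L i' : ℤ) < rr r0 L i' := by
    intro y
    simp only [hlo, low, Finset.mem_filter, Finset.mem_Ico, hr, hh']
  -- y mod h in the strip
  have hymod : ∀ y : ℤ, Y * h ≤ y → y < Y * h + r → y % (h : ℤ) < r := by
    intro y h1 h2
    have : y % (h : ℤ) = y - Y * h := by
      rw [show y = (y - Y * h) + h * Y by ring, Int.add_mul_emod_self_left,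
        Int.emod_eq_of_lt (by linarith) (by have : (r : ℤ) ≤ h := by exact_mod_cast hrh
                                            linarith)]
      ring
    rw [this]; linarith
  have hxdiv : ∀ (x a : ℤ), a * r ≤ x → x < a * r + r → x / (r : ℤ) = a := by
    intro x a h1 h2
    rw [Int.ediv_eq_iff_of_pos hrZ]
    constructor <;> linarith
  -- (1) white square
  have hw : cnt Zᶜ ((2 * X + 1) * r) (Y * h) r ≤ r * lo.card := by
    unfold cnt
    have e : r * lo.card = (Finset.Ico ((2 * X + 1) * (r : ℤ)) ((2 * X + 1) * r + r) ×ˢ lo).card := by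
      simp
    rw [e]
    apply Finset.card_le_card
    intro q hq
    simp only [Finset.mem_filter, Finset.mem_product, Finset.mem_Ico, Set.mem_compl_iff] at hq ⊢
    obtain ⟨⟨hq1, hq2⟩, hqZ⟩ := hq
    refine ⟨hq1, ?_⟩
    have hqs : q ∈ sq ((2 * X + 1) * rr r0 L i) (Y * hh r0 L i) (rr r0 L i) := by
      exact ⟨hq1.1, hq1.2, hq2.1, hq2.2⟩
    rw [hZ q (Or.inr hqs), not_not] at hqZ
    obtain ⟨-, i1, hi1, hp1, hp2, hp3⟩ := hqZ
    rw [hlomem]
    refine ⟨hq2, ?_⟩
    rcases lt_trichotomy i1 i with hlt | heq | hgt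
    · exact ⟨i1, hlt, hp1⟩
    · exfalso
      subst heq
      rw [← hr, hxdiv q.1 (2 * X + 1) hq1.1 hq1.2] at hp3
      exact (Int.not_even_iff_odd.2 ⟨X, rfl⟩) hp3
    · exfalso
      have := hp2 i hgt
      have h2 := hymod q.2 hq2.1 hq2.2
      rw [← hr, ← hh'] at this
      linarith
  -- (2) black square
  have hb : cnt H (2 * X * r) (Y * h) r ≤ cnt Zᶜ (2 * X * r) (Y * h) r + r * lo.card := by
    unfold cnt
    have e : r * lo.card = (Finset.Ico ((2 * X) * (r : ℤ)) ((2 * X) * r + r) ×ˢ lo).card := by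
      simp
    rw [e]
    refine le_trans (Finset.card_le_card ?_) (Finset.card_union_le _ _)
    intro q hq
    simp only [Finset.mem_filter, Finset.mem_product, Finset.mem_Ico, Set.mem_compl_iff,
      Finset.mem_union] at hq ⊢
    obtain ⟨⟨hq1, hq2⟩, hqH⟩ := hq
    by_cases hql : q.2 ∈ lo
    · exact Or.inr ⟨hq1, hql⟩
    · left
      refine ⟨⟨hq1, hq2⟩, ?_⟩
      have hqs : q ∈ sq (2 * X * rr r0 L i) (Y * hh r0 L i) (rr r0 L i) := by
        exact ⟨hq1.1, hq1.2, hq2.1, hq2.2⟩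
      rw [hZ q (Or.inl hqs), not_not]
      refine ⟨hqH, i, hi, hymod q.2 hq2.1 hq2.2, ?_, ?_⟩
      · intro i' hi'
        by_contra hcon
        push Not at hcon
        exact hql ((hlomem q.2).2 ⟨hq2, i', hi', hcon⟩)
      · rw [← hr, hxdiv q.1 (2 * X) hq1.1 hq1.2]
        exact even_two_mul X
  have hTdvd : T ∣ r := by
    rw [hr, rr]; exact Dvd.dvd.mul_right hTr _
  obtain ⟨k, hk⟩ := hTdvd
  have hden : k * r ≤ cnt H (2 * X * r) (Y * h) r := by
    have := cnt_dense H T hT hH (2 * X * r) (Y * h) k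
    rw [mul_comm k T, ← hk] at this
    exact this
  have c1 := cnt_compl Z (2 * X * r) (Y * h) r
  have c2 := cnt_compl Z ((2 * X + 1) * r) (Y * h) r
  have hrR : (0 : ℝ) < r := by exact_mod_cast hrpos
  have hTR : (0 : ℝ) < T := by exact_mod_cast hT
  have hLR : (0 : ℝ) < L := by exact_mod_cast hL
  have hkR : (r : ℝ) = T * k := by exact_mod_cast hk
  have d1 : (cnt Z (2 * X * r) (Y * h) r : ℝ) + cnt Zᶜ (2 * X * r) (Y * h) r = r * r := by
    exact_mod_cast c1
  have d2 : (cnt Z ((2 * X + 1) * r) (Y * h) r : ℝ) + cnt Zᶜ ((2 * X + 1) * r) (Y * h) r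
      = r * r := by
    exact_mod_cast c2
  have d3 : (cnt Zᶜ ((2 * X + 1) * r) (Y * h) r : ℝ) ≤ r * lo.card := by exact_mod_cast hw
  have d4 : (cnt H (2 * X * r) (Y * h) r : ℝ) ≤ cnt Zᶜ (2 * X * r) (Y * h) r + r * lo.card := by
    exact_mod_cast hb
  have d5 : (k : ℝ) * r ≤ cnt H (2 * X * r) (Y * h) r := by exact_mod_cast hden
  have d6 : (lo.card : ℝ) * L ≤ i * r := by exact_mod_cast hlocard
  have d7 : 4 * (m : ℝ) * T ≤ L := by exact_mod_cast hLm
  have d8 : (i : ℝ) ≤ m := by exact_mod_cast hi.le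
  -- low is small
  have d9 : (lo.card : ℝ) * (4 * T) ≤ r := by
    by_cases hm : (m : ℝ) = 0
    · have : i < m := hi
      have hm' : m = 0 := by exact_mod_cast hm
      omega
    have hmpos : (0 : ℝ) < m := lt_of_le_of_ne (Nat.cast_nonneg m) (Ne.symm hm)
    have e1 : (lo.card : ℝ) * (4 * m * T) ≤ m * r := by
      calc (lo.card : ℝ) * (4 * m * T) ≤ lo.card * L := by gcongr
        _ ≤ i * r := d6
        _ ≤ m * r := by gcongr
    have e2 : m * ((lo.card : ℝ) * (4 * T)) ≤ m * r := by linarith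
    exact le_of_mul_le_mul_left e2 hmpos
  have d10 : (k : ℝ) = r / T := by
    rw [hkR]; field_simp
  have e1 : 1 / (2 * (T : ℝ)) * (r : ℝ) ^ 2 ≤ k * r - 2 * (r * lo.card) := by
    have e2 : (lo.card : ℝ) ≤ r / (4 * T) := by
      rw [le_div_iff₀ (by positivity)]; exact d9
    have e3 : 2 * ((r : ℝ) * lo.card) ≤ 2 * (r * (r / (4 * T))) := by gcongr
    have e4 : 1 / (2 * (T : ℝ)) * (r : ℝ) ^ 2 = (r / T) * r - 2 * (r * (r / (4 * T))) := by
      field_simp; ring
    rw [e4, d10]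
    linarith
  rw [abs_sub_comm]
  refine e1.trans (le_trans ?_ (le_abs_self _))
  linarith

end Pool.Agent.helper62.CP
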