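import Mathlib
import Pool.Agent.helper62.CPStep

set_option autoImplicit false

namespace Pool.Agent.helper62.CP

open scoped RealInnerProductSpace

lemma G_lip {K : ℝ} {Z : Set (ℤ × ℤ)} {g : ℤ × ℤ → ℂ} {L : AddSubgroup ℂ}
    {st : ℤ × ℤ → ℤ × ℤ} (hK : 1 ≤ K) (hBL : BL K Z g L) (hst : Star Z st) (q q' : ℤ × ℤ) :
    ‖g (st q) - g (st q')‖ ≤ K * (dist q q' + 2) := by
  refine (hBL.up _ (hst.mem q) _ (hst.mem q')).trans ?_
  have a1 := dist_triangle4 (st q) q q' (st q')
  have a2 := hst.near q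
  have a3 := hst.near q'
  rw [dist_comm] at a3
  have : 0 ≤ K := by linarith
  gcongr
  linarith

lemma sum_even_le (f : ℕ → ℝ) (hf : ∀ j, 0 ≤ f j) (n : ℕ) :
    ∑ l ∈ Finset.range n, f (2 * l) ≤ ∑ j ∈ Finset.range (2 * n), f j := by
  induction n with
  | zero => simp
  | succ n ih =>
    rw [Finset.sum_range_succ, show 2 * (n + 1) = 2 * n + 1 + 1 by ring, Finset.sum_range_succ,
      Finset.sum_range_succ]
    linarith [hf (2 * n + 1)]

theorem one_step (K c : ℝ) (hK : 1 ≤ K) (hc : 0 < c) : ∃ (M : ℕ) (κ : ℝ), 0 < M ∧ 0 < κ ∧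
    ∀ (Z : Set (ℤ × ℤ)) (g : ℤ × ℤ → ℂ) (L : AddSubgroup ℂ) (st : ℤ × ℤ → ℤ × ℤ),
    BL K Z g L → Star Z st →
    ∀ (r' r n H R : ℕ), 0 < r' → 0 < n → r = M * r' → R = 2 * n * r →
    4 * K ^ 2 * (H + 2) ≤ κ * R →
    ∀ (p : ℤ × ℤ) (x0 y0 : ℤ) (A : ℝ), 1 / (2 * K) ≤ A →
      A * R ≤ ‖g (st (p + ((R : ℤ), 0))) - g (st p)‖ →
      |x0 - p.1| + r ≤ H → |y0 - p.2| + r ≤ H →
      (∃ q : ℤ × ℤ, x0 ≤ q.1 ∧ q.1 < x0 + R ∧ y0 ≤ q.2 ∧ q.2 < y0 + r ∧
        (1 + κ) * A * r ≤ ‖g (st (q + ((r : ℤ), 0))) - g (st q)‖) ∨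
      ∃ l < n, |(cnt Z (x0 + 2 * l * r) y0 r : ℝ) - cnt Z (x0 + (2 * l + 1) * r) y0 r| <
        c * r ^ 2 := by
  obtain ⟨C, hC, hpair⟩ := pair_comp K hK
  obtain ⟨M, hM⟩ := exists_nat_gt (9 * K * C / c)
  have hM0 : (0 : ℝ) < M := lt_of_le_of_lt (by positivity) hM
  have hM1 : 0 < M := by exact_mod_cast hM0
  have hM2 : (1 : ℝ) ≤ M := by exact_mod_cast hM1
  have hK0 : 0 < K := by linarith
  refine ⟨M, 1 / (16 * M ^ 4), hM1, by positivity, ?_⟩
  set κ : ℝ := 1 / (16 * M ^ 4) with hκ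
  have hκ0 : 0 < κ := by positivity
  intro Z g L st hBL hst r' r n H R hr' hn hr hR hH p x0 y0 A hA hstr hx0 hy0
  have hr'R : (1 : ℝ) ≤ r' := by exact_mod_cast hr'
  have hrR : (r : ℝ) = M * r' := by rw [hr]; push_cast; ring
  have hr0 : (0 : ℝ) < r := by rw [hrR]; positivity
  have hRR : (R : ℝ) = 2 * n * r := by rw [hR]; push_cast; ring
  have hnR : (1 : ℝ) ≤ n := by exact_mod_cast hn
  have hR0 : (0 : ℝ) < R := by rw [hRR]; positivity
  have hA0 : 0 < A := lt_of_lt_of_le (by positivity) hA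
  have hr1 : (1 : ℝ) ≤ r := by
    rw [hrR]; nlinarith
  have hR1 : (1 : ℝ) ≤ R := by
    rw [hRR]; nlinarith
  by_contra hcon
  push Not at hcon
  obtain ⟨hca, hcb⟩ := hcon
  set G : ℤ × ℤ → ℂ := fun q => g (st q) with hG
  have hGlip : ∀ q q', ‖G q - G q'‖ ≤ K * (dist q q' + 2) := fun q q' => G_lip hK hBL hst q q'
  set B : ℂ := G (p + ((R : ℤ), 0)) - G p with hB
  have hBpos : 0 < ‖B‖ := lt_of_lt_of_le (by positivity) hstr
  set e : ℂ := (‖B‖⁻¹ : ℝ) • B with he
  have hen : ‖e‖ = 1 := by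
    rw [he, norm_smul, Real.norm_of_nonneg (by positivity)]
    field_simp
  have hBe : ⟪B, e⟫ = ‖B‖ := by
    rw [he, real_inner_smul_right, real_inner_self_eq_norm_sq]
    field_simp
  -- upper bound for A
  have hAK : A ≤ 3 * K := by
    have h1 := hGlip (p + ((R : ℤ), 0)) p
    have h2 : dist (p + ((R : ℤ), 0)) p = R := by
      rw [Prod.dist_eq, Int.dist_eq, Int.dist_eq]
      simp
    rw [h2] at h1
    have h3 : A * R ≤ 3 * K * R := by
      calc A * R ≤ K * (R + 2) := hstr.trans h1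
        _ ≤ 3 * K * R := by nlinarith
    exact le_of_mul_le_mul_right h3 hR0
  -- the points
  let P : ℕ → ℤ × ℤ → ℤ × ℤ := fun j v => (x0 + j * r + v.1, y0 + v.2)
  let V : Finset (ℤ × ℤ) := (Finset.range M ×ˢ Finset.range M).image
    (fun i : ℕ × ℕ => (((r' * i.1 : ℕ) : ℤ), ((r' * i.2 : ℕ) : ℤ)))
  have hVcard : (V.card : ℝ) ≤ M ^ 2 := by
    have : V.card ≤ M * M := by
      refine Finset.card_image_le.trans ?_
      simp
    have h2 : (V.card : ℝ) ≤ ((M * M : ℕ) : ℝ) := by exact_mod_cast this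
    refine h2.trans (le_of_eq ?_)
    push_cast; ring
  have hVmem : ∀ v ∈ V, 0 ≤ v.1 ∧ v.1 < r ∧ 0 ≤ v.2 ∧ v.2 < r := by
    intro v hv
    simp only [V, Finset.mem_image, Finset.mem_product, Finset.mem_range] at hv
    obtain ⟨i, ⟨hi1, hi2⟩, rfl⟩ := hv
    have h1 : r' * i.1 < M * r' := by nlinarith
    have h2 : r' * i.2 < M * r' := by nlinarith
    rw [hr]
    refine ⟨by positivity, ?_, by positivity, ?_⟩
    · change ((r' * i.1 : ℕ) : ℤ) < ((M * r' : ℕ) : ℤ)
      exact_mod_cast h1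
    · change ((r' * i.2 : ℕ) : ℤ) < ((M * r' : ℕ) : ℤ)
      exact_mod_cast h2
  have hP : ∀ j v, P (j + 1) v = P j v + ((r : ℤ), 0) := by
    intro j v
    simp only [P, Prod.mk_add_mk, add_zero]
    ext
    · push_cast; ring
    · rfl
  let Dv : ℕ → ℤ × ℤ → ℂ := fun j v => G (P (j + 1) v) - G (P j v)
  let d : ℕ → ℤ × ℤ → ℝ := fun j v => (1 + κ) * A * r - ⟪Dv j v, e⟫
  have hDlt : ∀ j < 2 * n, ∀ v ∈ V, ‖Dv j v‖ < (1 + κ) * A * r := by
    intro j hj v hv
    have hv' := hVmem v hv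
    have h1 : (j : ℤ) * r + r ≤ 2 * n * r := by
      have : (j + 1) * r ≤ 2 * n * r := by gcongr; omega
      have h2 : (((j + 1) * r : ℕ) : ℤ) ≤ ((2 * n * r : ℕ) : ℤ) := by exact_mod_cast this
      push_cast at h2
      linarith
    have h2 : 0 ≤ (j : ℤ) * r := by positivity
    have := hca (P j v) (by simp only [P]; omega) (by simp only [P]; rw [hR]; push_cast; omega)
      (by simp only [P]; omega) (by simp only [P]; omega)
    rw [← hP] at this
    exact this
  have hdnn : ∀ j < 2 * n, ∀ v ∈ V, 0 ≤ d j v := by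
    intro j hj v hv
    have h1 := real_inner_le_norm (Dv j v) e
    rw [hen, mul_one] at h1
    have h2 := hDlt j hj v hv
    simp only [d]
    linarith
  have hsum : ∀ v ∈ V, ∑ j ∈ Finset.range (2 * n), d j v ≤ 2 * κ * A * R := by
    intro v hv
    have hv' := hVmem v hv
    have h1 : ∑ j ∈ Finset.range (2 * n), Dv j v = G (P (2 * n) v) - G (P 0 v) := by
      simp only [Dv]
      exact Finset.sum_range_sub (fun j => G (P j v)) (2 * n)
    have h2 : ∑ j ∈ Finset.range (2 * n), d j v =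
        (1 + κ) * A * R - ⟪G (P (2 * n) v) - G (P 0 v), e⟫ := by
      simp only [d]
      rw [Finset.sum_sub_distrib, ← sum_inner, h1, Finset.sum_const, Finset.card_range,
        nsmul_eq_mul, hRR]
      push_cast
      ring
    have hdx : |x0 + v.1 - p.1| ≤ (H : ℤ) := by
      rw [abs_le]
      have := abs_le.1 (show |x0 - p.1| ≤ H - r by linarith)
      omega
    have hdy : |y0 + v.2 - p.2| ≤ (H : ℤ) := by
      rw [abs_le]
      have := abs_le.1 (show |y0 - p.2| ≤ H - r by linarith)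
      omega
    have h3 : ‖G (P 0 v) - G p‖ ≤ K * (H + 2) := by
      refine (hGlip _ _).trans ?_
      gcongr
      rw [dist_le_iff]
      constructor
      · have : |x0 + ((0 : ℕ) : ℤ) * r + v.1 - p.1| ≤ (H : ℤ) := by simpa using hdx
        exact_mod_cast this
      · exact_mod_cast hdy
    have h4 : ‖G (P (2 * n) v) - G (p + ((R : ℤ), 0))‖ ≤ K * (H + 2) := by
      refine (hGlip _ _).trans ?_
      gcongr
      rw [dist_le_iff]
      constructor
      · have e1 : (P (2 * n) v).1 - (p + ((R : ℤ), (0 : ℤ))).1 = x0 + v.1 - p.1 := by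
          simp only [P, Prod.fst_add, hR]
          push_cast
          ring
        have : |(P (2 * n) v).1 - (p + ((R : ℤ), (0 : ℤ))).1| ≤ (H : ℤ) := by rw [e1]; exact hdx
        exact_mod_cast this
      · have e1 : (P (2 * n) v).2 - (p + ((R : ℤ), (0 : ℤ))).2 = y0 + v.2 - p.2 := by
          simp only [P, Prod.snd_add, add_zero]
        have : |(P (2 * n) v).2 - (p + ((R : ℤ), (0 : ℤ))).2| ≤ (H : ℤ) := by rw [e1]; exact hdy
        exact_mod_cast this
    have h5 : ⟪G (P (2 * n) v) - G (P 0 v), e⟫ ≥ ‖B‖ - 2 * K * (H + 2) := by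
      have e1 : G (P (2 * n) v) - G (P 0 v) =
          B + ((G (P (2 * n) v) - G (p + ((R : ℤ), 0))) - (G (P 0 v) - G p)) := by
        rw [hB]; ring
      rw [e1, inner_add_left, hBe]
      have h6 := abs_real_inner_le_norm
        ((G (P (2 * n) v) - G (p + ((R : ℤ), 0))) - (G (P 0 v) - G p)) e
      rw [hen, mul_one] at h6
      have h7 := norm_sub_le (G (P (2 * n) v) - G (p + ((R : ℤ), 0))) (G (P 0 v) - G p)
      have h8 := neg_abs_le ⟪(G (P (2 * n) v) - G (p + ((R : ℤ), 0))) - (G (P 0 v) - G p), e⟫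
      linarith
    have h6 : 2 * K * (H + 2) ≤ κ * A * R := by
      have h7 : 1 ≤ A * (2 * K) := by
        rwa [div_le_iff₀ (by positivity)] at hA
      have h8 : 0 ≤ (κ * R) * (A * (2 * K) - 1) := by
        apply mul_nonneg (by positivity); linarith
      have h9 : (2 * K) * (2 * K * (H + 2)) ≤ (2 * K) * (κ * A * R) := by
        nlinarith
      exact le_of_mul_le_mul_left h9 (by positivity)
    rw [h2]
    have h7 : (1 + κ) * A * R = A * R + κ * A * R := by ring
    have h8 : A * R ≤ ‖B‖ := hstr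
    have h9 : 2 * κ * A * R = κ * A * R + κ * A * R := by ring
    linarith
  -- choose the good pair of squares
  obtain ⟨l, hl, hlsum⟩ : ∃ l < n, ∑ v ∈ V, d (2 * l) v ≤ 4 * κ * M ^ 2 * A * r := by
    by_contra hno
    push Not at hno
    have h1 : ∑ l ∈ Finset.range n, (4 * κ * M ^ 2 * A * r) <
        ∑ l ∈ Finset.range n, ∑ v ∈ V, d (2 * l) v := by
      apply Finset.sum_lt_sum_of_nonempty
      · simpa using hn.ne'
      · intro l hl
        exact hno l (Finset.mem_range.1 hl)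
    rw [Finset.sum_const, Finset.card_range, nsmul_eq_mul, Finset.sum_comm] at h1
    have h2 : ∑ v ∈ V, ∑ l ∈ Finset.range n, d (2 * l) v ≤ ∑ v ∈ V, 2 * κ * A * R := by
      apply Finset.sum_le_sum
      intro v hv
      refine le_trans ?_ (hsum v hv)
      have h3 := sum_even_le (fun j => if j < 2 * n then d j v else 0) (by
        intro j
        by_cases hj : j < 2 * n
        · simp only [hj, if_true]; exact hdnn j hj v hv
        · simp [hj]) n
      have h4 : ∑ l ∈ Finset.range n, (fun j => if j < 2 * n then d j v else 0) (2 * l) =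
          ∑ l ∈ Finset.range n, d (2 * l) v := by
        apply Finset.sum_congr rfl
        intro l hl
        have : 2 * l < 2 * n := by have := Finset.mem_range.1 hl; omega
        simp [this]
      have h5 : ∑ j ∈ Finset.range (2 * n), (fun j => if j < 2 * n then d j v else 0) j =
          ∑ j ∈ Finset.range (2 * n), d j v := by
        apply Finset.sum_congr rfl
        intro j hj
        have : j < 2 * n := Finset.mem_range.1 hj
        simp [this]
      rw [h4, h5] at h3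
      exact h3
    rw [Finset.sum_const, nsmul_eq_mul] at h2
    have h3 : (V.card : ℝ) * (2 * κ * A * R) ≤ M ^ 2 * (2 * κ * A * R) := by gcongr
    rw [hRR] at h2 h3
    nlinarith
  have hdl : ∀ v ∈ V, d (2 * l) v ≤ 4 * κ * M ^ 2 * A * r := by
    intro v hv
    refine le_trans ?_ hlsum
    exact Finset.single_le_sum (f := fun v => d (2 * l) v)
      (fun w hw => hdnn (2 * l) (by omega) w hw) hv
  have hκM : κ ^ 2 + 8 * κ * M ^ 2 ≤ 1 / M ^ 2 := by
    have h1 : κ * M ^ 4 = 1 / 16 := by rw [hκ]; field_simp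
    have hM4 : (1 : ℝ) ≤ (M : ℝ) ^ 4 := one_le_pow₀ hM2
    have hκle : κ ≤ 1 / 16 := by
      rw [← h1]; nlinarith
    rw [le_div_iff₀ (by positivity)]
    have h2 : (M : ℝ) ^ 2 ≤ M ^ 4 := pow_le_pow_right₀ hM2 (by norm_num)
    have h3 : κ ^ 2 * M ^ 2 ≤ κ * (κ * M ^ 4) := by
      have : κ * (κ * M ^ 4) = κ ^ 2 * M ^ 4 := by ring
      rw [this]; gcongr
    have h4 : (κ ^ 2 + 8 * κ * M ^ 2) * M ^ 2 = κ ^ 2 * M ^ 2 + 8 * (κ * M ^ 4) := by ring
    rw [h4, h1]
    rw [h1] at h3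
    linarith
  have hDclose : ∀ v ∈ V, ‖Dv (2 * l) v - (A * r : ℝ) • e‖ ≤ 3 * K * r' := by
    intro v hv
    have h1 := hDlt (2 * l) (by omega) v hv
    have h2 := hdl v hv
    simp only [d] at h2
    have h3 : ‖Dv (2 * l) v - (A * r : ℝ) • e‖ ^ 2 ≤ (A * r / M) ^ 2 := by
      rw [norm_sub_sq_real, real_inner_smul_right, norm_smul, hen, mul_one,
        Real.norm_of_nonneg (by positivity)]
      have h4 : ‖Dv (2 * l) v‖ ^ 2 ≤ ((1 + κ) * A * r) ^ 2 := by
        apply pow_le_pow_left₀ (norm_nonneg _) h1.le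
      have h5 : (1 + κ) * A * r - 4 * κ * M ^ 2 * A * r ≤ ⟪Dv (2 * l) v, e⟫ := by linarith
      have h6 : (A * r) * ((1 + κ) * A * r - 4 * κ * M ^ 2 * A * r) ≤
          (A * r) * ⟪Dv (2 * l) v, e⟫ := by gcongr
      have h7 : (A * r) ^ 2 * (κ ^ 2 + 8 * κ * M ^ 2) ≤ (A * r) ^ 2 * (1 / M ^ 2) := by gcongr
      have h8 : (A * r / M) ^ 2 = (A * r) ^ 2 * (1 / M ^ 2) := by
        field_simp
      rw [h8]
      nlinarith
    have h4 : ‖Dv (2 * l) v - (A * r : ℝ) • e‖ ≤ A * r / M :=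
      (pow_le_pow_iff_left₀ (norm_nonneg _) (by positivity) two_ne_zero).1 h3
    refine h4.trans ?_
    rw [hrR, div_le_iff₀ hM0]
    have : A * (M * r') ≤ 3 * K * (M * r') := by gcongr
    linarith
  -- all points of the good square
  have hall : ∀ z ∈ sq (x0 + 2 * l * r) y0 r,
      ‖g (st (z + ((r : ℤ), 0))) - g (st z) - (A * r : ℝ) • e‖ ≤ 9 * K * r' := by
    intro z hz
    simp only [sq, Set.mem_ofPred_eq] at hz
    obtain ⟨hz1, hz2, hz3, hz4⟩ := hz
    obtain ⟨a, ha⟩ := Int.eq_ofNat_of_zero_le (show 0 ≤ z.1 - (x0 + 2 * l * r) by linarith)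
    obtain ⟨b, hb⟩ := Int.eq_ofNat_of_zero_le (show 0 ≤ z.2 - y0 by linarith)
    have har : a < r := by omega
    have hbr : b < r := by omega
    set v : ℤ × ℤ := (((r' * (a / r') : ℕ) : ℤ), ((r' * (b / r') : ℕ) : ℤ)) with hv
    have hvV : v ∈ V := by
      simp only [V, Finset.mem_image, Finset.mem_product, Finset.mem_range]
      refine ⟨(a / r', b / r'), ⟨?_, ?_⟩, rfl⟩
      · exact Nat.div_lt_of_lt_mul (by rw [mul_comm]; rwa [hr] at har)
      · exact Nat.div_lt_of_lt_mul (by rw [mul_comm]; rwa [hr] at hbr)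
    have hd1 : dist z (P (2 * l) v) ≤ r' := by
      rw [dist_le_iff]
      have ha1 := Nat.div_add_mod a r'
      have ha2 := Nat.mod_lt a hr'
      have hb1 := Nat.div_add_mod b r'
      have hb2 := Nat.mod_lt b hr'
      constructor
      · have : |z.1 - (P (2 * l) v).1| ≤ (r' : ℤ) := by
          have e1 : z.1 - (P (2 * l) v).1 = ((a % r' : ℕ) : ℤ) := by
            simp only [P, hv]
            have : (a : ℤ) = ((r' * (a / r') : ℕ) : ℤ) + ((a % r' : ℕ) : ℤ) := by
              exact_mod_cast ha1.symm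
            push_cast at *
            linarith
          rw [e1, Nat.abs_cast]
          exact_mod_cast ha2.le
        exact_mod_cast this
      · have : |z.2 - (P (2 * l) v).2| ≤ (r' : ℤ) := by
          have e1 : z.2 - (P (2 * l) v).2 = ((b % r' : ℕ) : ℤ) := by
            simp only [P, hv]
            have : (b : ℤ) = ((r' * (b / r') : ℕ) : ℤ) + ((b % r' : ℕ) : ℤ) := by
              exact_mod_cast hb1.symm
            push_cast at *
            linarith
          rw [e1, Nat.abs_cast]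
          exact_mod_cast hb2.le
        exact_mod_cast this
    have hd2 : dist (z + ((r : ℤ), 0)) (P (2 * l + 1) v) ≤ r' := by
      rw [hP, dist_add_right]; exact hd1
    have h1 := hGlip z (P (2 * l) v)
    have h2 := hGlip (z + ((r : ℤ), 0)) (P (2 * l + 1) v)
    have h3 := hDclose v hvV
    have e1 : g (st (z + ((r : ℤ), 0))) - g (st z) - (A * r : ℝ) • e =
        (G (z + ((r : ℤ), 0)) - G (P (2 * l + 1) v)) +
        (Dv (2 * l) v - (A * r : ℝ) • e) - (G z - G (P (2 * l) v)) := by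
      simp only [Dv, G]; ring
    rw [e1]
    have h4 : K * (dist z (P (2 * l) v) + 2) ≤ K * (3 * r') := by gcongr; linarith
    have h5 : K * (dist (z + ((r : ℤ), 0)) (P (2 * l + 1) v) + 2) ≤ K * (3 * r') := by
      gcongr; linarith
    calc _ ≤ ‖G (z + ((r : ℤ), 0)) - G (P (2 * l + 1) v)‖ +
          ‖Dv (2 * l) v - (A * r : ℝ) • e‖ + ‖G z - G (P (2 * l) v)‖ :=
          (norm_sub_le _ _).trans (by gcongr; exact norm_add_le _ _)
      _ ≤ 9 * K * r' := by linarith
  have hfin := hpair Z g L st hBL hst (x0 + 2 * l * r) y0 r ((A * r : ℝ) • e) (9 * K * r')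
    (by nlinarith) hall
  have hfin2 := hcb l hl
  have e1 : x0 + 2 * (l : ℤ) * r + r = x0 + (2 * l + 1) * r := by ring
  rw [e1] at hfin
  have h1 : C * (9 * K * r') * r < c * r ^ 2 := by
    have h2 : 9 * K * C < c * M := by
      rw [div_lt_iff₀ hc] at hM
      linarith
    have h3 : (9 * K * C) * (r' * r) < (c * M) * (r' * r) := by
      apply mul_lt_mul_of_pos_right h2; positivity
    have h4 : c * (r : ℝ) ^ 2 = (c * M) * (r' * r) := by
      rw [hrR]; ring
    rw [h4]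
    linarith
  linarith

end Pool.Agent.helper62.CP
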