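import Mathlib
import Pool.Agent.helper62.CPStretch
import Pool.Agent.helper62.CPPattern

set_option autoImplicit false

namespace Pool.Agent.helper62.CP

lemma rr_mono {r0 L : ℕ} (hL : 0 < L) {i j : ℕ} (hij : i ≤ j) : rr r0 L i ≤ rr r0 L j := by
  unfold rr
  gcongr

/-- A finite multi-scale pattern of holes in a large box excludes `K`-bi-Lipschitz bijections
onto a `K`-dense subgroup of the plane. -/
theorem no_BL (K : ℝ) (hK : 1 ≤ K) (T : ℕ) (hT : 0 < T) : ∃ r0 L m ρ : ℕ,
    ∀ (H Z : Set (ℤ × ℤ)), (∀ x y : ℤ, ∃ l < T, (x + (l : ℤ), y) ∈ H) →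
    (∀ q : ℤ × ℤ, |q.1| ≤ ρ → |q.2| ≤ ρ → (q ∈ Z ↔ ¬ (q ∈ H ∧ q ∈ Pat r0 L m))) →
    ∀ (g : ℤ × ℤ → ℂ) (Λ : AddSubgroup ℂ) (st : ℤ × ℤ → ℤ × ℤ),
      BL K Z g Λ → Star Z st → False := by
  have hTR : (0 : ℝ) < T := by exact_mod_cast hT
  have hK0 : 0 < K := by linarith
  obtain ⟨M, κ, hM, hκ, hstep⟩ := one_step K (1 / (2 * (T : ℝ))) hK (by positivity)
  obtain ⟨m, hm⟩ := pow_unbounded_of_one_lt (6 * K ^ 2) (show 1 < 1 + κ by linarith)
  have hm0 : 0 < m := by
    rcases Nat.eq_zero_or_pos m with h | h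
    · subst h
      rw [pow_zero] at hm
      nlinarith
    · exact h
  obtain ⟨L0, hL0⟩ := exists_nat_ge (24 * K ^ 2 / κ)
  set a : ℕ := L0 + 4 * m * T + 1 with ha
  set L : ℕ := 2 * a with hL
  have hLpos : 0 < L := by omega
  have hL2 : 2 ≤ L := by omega
  have hLm : 4 * m * T ≤ L := by omega
  have hLκ : 24 * K ^ 2 ≤ κ * L := by
    rw [div_le_iff₀ hκ] at hL0
    have : (L0 : ℝ) ≤ L := by
      have : L0 ≤ L := by omega
      exact_mod_cast this
    nlinarith
  set r0 : ℕ := M * T with hr0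
  have hr0pos : 0 < r0 := Nat.mul_pos hM hT
  set rm : ℕ := rr r0 L m with hrm
  refine ⟨r0, L, m, (m + 1) * rm, ?_⟩
  intro H Z hH hZ g Λ st hBL hst
  have hrmpos : 0 < rm := rr_pos hr0pos hLpos m
  have hrm4 : 4 ≤ rm := by
    rw [hrm, rr]
    have h1 : 2 ^ 2 ≤ L ^ (2 * m) := by
      calc 2 ^ 2 ≤ L ^ 2 := Nat.pow_le_pow_left hL2 2
        _ ≤ L ^ (2 * m) := Nat.pow_le_pow_right hLpos (by omega)
    have h2 : 1 ≤ r0 := hr0pos
    nlinarith
  have key : ∀ j ≤ m, ∃ q : ℤ × ℤ, |q.1| ≤ (j * rm : ℕ) ∧ |q.2| ≤ (j * rm : ℕ) ∧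
      ((1 + κ) ^ j / (2 * K)) * rr r0 L (m - j) ≤
        ‖g (st (q + ((rr r0 L (m - j) : ℤ), 0))) - g (st q)‖ := by
    intro j
    induction j with
    | zero =>
      intro _
      refine ⟨(0, 0), by simp, by simp, ?_⟩
      rw [Nat.sub_zero, ← hrm, pow_zero]
      have h1 := hBL.lo _ (hst.mem ((0, 0) + ((rm : ℤ), 0))) _ (hst.mem (0, 0))
      have h2 := hst.near ((0, 0) + ((rm : ℤ), 0))
      have h3 := hst.near (0, 0)
      have h4 := dist_triangle4 ((0, 0) + ((rm : ℤ), 0)) (st ((0, 0) + ((rm : ℤ), 0)))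
        (st (0, 0)) (0, 0)
      have h5 : dist (((0 : ℤ), (0 : ℤ)) + ((rm : ℤ), 0)) (0, 0) = rm := by
        rw [Prod.dist_eq, Int.dist_eq, Int.dist_eq]
        simp
      rw [h5] at h4
      have h2' : dist (((0 : ℤ), (0 : ℤ)) + ((rm : ℤ), 0)) (st ((0, 0) + ((rm : ℤ), 0))) ≤ 1 := by
        rw [dist_comm]; exact h2
      have h6 : (4 : ℝ) ≤ rm := by exact_mod_cast hrm4
      have h7 : (rm : ℝ) ≤ K * ‖g (st ((0, 0) + ((rm : ℤ), 0))) - g (st (0, 0))‖ + 2 := by
        linarith
      rw [div_mul_eq_mul_div, one_mul, div_le_iff₀ (by positivity)]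
      nlinarith
    | succ j ih =>
      intro hj
      obtain ⟨p, hp1, hp2, hp3⟩ := ih (by omega)
      obtain ⟨i, hi⟩ : ∃ i, m - j = i + 1 := ⟨m - j - 1, by omega⟩
      have hi' : m - (j + 1) = i := by omega
      have him : i < m := by omega
      rw [hi'] 
      rw [hi] at hp3
      set r := rr r0 L i with hr
      set h := hh r0 L i with hh'
      set R := rr r0 L (i + 1) with hR
      have hrpos : 0 < r := rr_pos hr0pos hLpos i
      have hhpos : 0 < h := hh_pos hr0pos hLpos i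
      have hhr : h = L * r := hh_eq r0 L i
      have hRh : R = L * h := rr_succ r0 L i
      have hRrm : R ≤ rm := rr_mono hLpos (by omega)
      have hrh : r ≤ h := by rw [hhr]; exact Nat.le_mul_of_pos_left _ hLpos
      have hhR : h ≤ R := by rw [hRh]; exact Nat.le_mul_of_pos_left _ hLpos
      have h2rR : 2 * r ≤ R := by
        calc 2 * r ≤ L * r := by gcongr
          _ = h := hhr.symm
          _ ≤ R := hhR
      set x0 : ℤ := 2 * (p.1 / (2 * r)) * r with hx0
      set y0 : ℤ := (p.2 / h) * h with hy0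
      have hrZ : (0 : ℤ) < r := by exact_mod_cast hrpos
      have hhZ : (0 : ℤ) < h := by exact_mod_cast hhpos
      have hx1 : x0 ≤ p.1 := by
        have := Int.ediv_mul_le p.1 (show (2 * r : ℤ) ≠ 0 by positivity)
        rw [hx0]; linarith
      have hx2 : p.1 < x0 + 2 * r := by
        have := Int.lt_ediv_add_one_mul_self p.1 (show (0 : ℤ) < 2 * r by positivity)
        rw [hx0]; linarith
      have hy1 : y0 ≤ p.2 := Int.ediv_mul_le p.2 hhZ.ne'
      have hy2 : p.2 < y0 + h := by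
        have := Int.lt_ediv_add_one_mul_self p.2 hhZ
        rw [hy0]; linarith
      have e1 : (r : ℤ) ≤ h := by exact_mod_cast hrh
      have e2 : (h : ℤ) ≤ R := by exact_mod_cast hhR
      have e3 : (2 * r : ℤ) ≤ R := by exact_mod_cast h2rR
      have e4 : (R : ℤ) ≤ rm := by exact_mod_cast hRrm
      have e5 : ((j * rm : ℕ) : ℤ) + rm = (((j + 1) * rm : ℕ) : ℤ) := by push_cast; ring
      have e6 : (((j + 1) * rm : ℕ) : ℤ) ≤ (((m + 1) * rm : ℕ) : ℤ) := by
        have : (j + 1) * rm ≤ (m + 1) * rm := by gcongr; omega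
        exact_mod_cast this
      have hp1' := abs_le.1 hp1
      have hp2' := abs_le.1 hp2
      have hcond : 4 * K ^ 2 * (((h + 3 * r : ℕ) : ℝ) + 2) ≤ κ * R := by
        have f1 : (r : ℝ) ≤ h := by exact_mod_cast hrh
        have f2 : (1 : ℝ) ≤ h := by exact_mod_cast hhpos
        have f3 : (R : ℝ) = L * h := by exact_mod_cast hRh
        push_cast
        calc 4 * K ^ 2 * ((h : ℝ) + 3 * r + 2) ≤ 4 * K ^ 2 * (6 * h) := by
              gcongr; linarith
          _ = (24 * K ^ 2) * h := by ring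
          _ ≤ (κ * L) * h := by gcongr
          _ = κ * R := by rw [f3]; ring
      have hA : 1 / (2 * K) ≤ (1 + κ) ^ j / (2 * K) := by
        gcongr
        exact one_le_pow₀ (by linarith)
      rcases hstep Z g Λ st hBL hst (T * L ^ (2 * i)) r (2 * a ^ 2) (h + 3 * r) R
        (by positivity) (by positivity) (by rw [hr, rr, hr0]; ring)
        (by rw [hRh, hhr, hL]; ring) hcond p x0 y0 _ hA hp3
        (by
          have : |x0 - p.1| ≤ 2 * r := by rw [abs_le]; constructor <;> linarith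
          push_cast; linarith)
        (by
          have : |y0 - p.2| ≤ h := by rw [abs_le]; constructor <;> linarith
          push_cast; linarith) with ⟨q, hq1, hq2, hq3, hq4, hq5⟩ | ⟨l, hl, hlc⟩
      · refine ⟨q, ?_, ?_, ?_⟩
        · rw [abs_le]; constructor <;> linarith
        · rw [abs_le]; constructor <;> linarith
        · convert hq5 using 1
          rw [pow_succ]; ring
      · exfalso
        have hRn : (R : ℤ) = 2 * ((2 * a ^ 2 : ℕ) : ℤ) * r := by
          have : R = 2 * (2 * a ^ 2) * r := by rw [hRh, hhr, hL]; ring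
          rw [this]; push_cast; ring
        have hl1 : 2 * ((l : ℤ) + 1) * r ≤ R := by
          rw [hRn]
          have : (l : ℤ) + 1 ≤ ((2 * a ^ 2 : ℕ) : ℤ) := by exact_mod_cast hl
          gcongr
        have hl0 : 0 ≤ 2 * (l : ℤ) * r := by positivity
        have hc := contrast hr0pos hLpos hT (Dvd.intro_left M rfl) hLm H Z hH i him
          (p.1 / (2 * r) + l) (p.2 / h) (by
            intro q hq
            apply hZ
            · rw [← hr, ← hh'] at hq
              rcases hq with hq | hq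
              · obtain ⟨g1, g2, g3, g4⟩ := hq
                rw [abs_le]; constructor <;> linarith
              · obtain ⟨g1, g2, g3, g4⟩ := hq
                rw [abs_le]; constructor <;> linarith
            · rw [← hr, ← hh'] at hq
              rcases hq with hq | hq
              · obtain ⟨g1, g2, g3, g4⟩ := hq
                rw [abs_le]; constructor <;> linarith
              · obtain ⟨g1, g2, g3, g4⟩ := hq
                rw [abs_le]; constructor <;> linarith)
        rw [← hr, ← hh'] at hc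
        have e7 : 2 * (p.1 / (2 * (r : ℤ)) + l) * r = x0 + 2 * l * r := by rw [hx0]; ring
        have e8 : (2 * (p.1 / (2 * (r : ℤ)) + l) + 1) * r = x0 + (2 * l + 1) * r := by
          rw [hx0]; ring
        rw [e7, e8] at hc
        exact absurd hlc (not_lt.2 hc)
  obtain ⟨q, -, -, hq⟩ := key m le_rfl
  rw [Nat.sub_self] at hq
  have hrr0 : rr r0 L 0 = r0 := by simp [rr]
  rw [hrr0] at hq
  have h1 := G_lip hK hBL hst (q + ((r0 : ℤ), 0)) q
  have h2 : dist (q + ((r0 : ℤ), 0)) q = r0 := by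
    rw [Prod.dist_eq, Int.dist_eq, Int.dist_eq]
    simp
  rw [h2] at h1
  have h3 : (1 : ℝ) ≤ r0 := by exact_mod_cast hr0pos
  have h4 : (1 + κ) ^ m / (2 * K) * r0 ≤ (3 * K) * r0 := by
    calc (1 + κ) ^ m / (2 * K) * r0 ≤ K * (r0 + 2) := hq.trans h1
      _ ≤ (3 * K) * r0 := by nlinarith
  have h5 : (1 + κ) ^ m / (2 * K) ≤ 3 * K := le_of_mul_le_mul_right h4 (by linarith)
  rw [div_le_iff₀ (by positivity)] at h5
  nlinarith

end Pool.Agent.helper62.CP
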