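import Mathlib
import Pool.Agent.helper62.CPNoBL

set_option autoImplicit false

namespace Pool.Agent.helper62.CP

open Real

/-- the internal coordinate (mod 1) of a point of `ℤ²`. -/
noncomputable def tt (q : ℤ × ℤ) : ℝ := Int.fract (√2 * q.1 + √3 * q.2)

/-- uniform return times of an irrational rotation to `(0,ε)` -/
lemma return_time (a : ℝ) (ha : Irrational a) (ε : ℝ) (hε : 0 < ε) (hε1 : ε ≤ 1) :
    ∃ T : ℕ, 0 < T ∧ ∀ θ : ℝ, ∃ l < T, 0 < Int.fract (θ + l * a) ∧ Int.fract (θ + l * a) < ε := by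
  obtain ⟨n, hn⟩ := exists_nat_gt (1 / ε)
  have hn0 : 0 < n := by
    have : (0 : ℝ) < n := lt_trans (by positivity) hn
    exact_mod_cast this
  obtain ⟨p, q, hq, -, hpq⟩ := Real.exists_int_int_abs_mul_sub_le a hn0
  obtain ⟨k0, hk0⟩ := Int.eq_ofNat_of_zero_le hq.le
  set d : ℝ := q * a - p with hd
  have hd0 : d ≠ 0 := by
    intro h
    have h1 : a = p / q := by
      have : (q : ℝ) ≠ 0 := by exact_mod_cast hq.ne'
      field_simp
      linarith
    exact ha ⟨(p : ℚ) / q, by rw [h1]; push_cast; rfl⟩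
  have hdε : |d| < ε := by
    refine lt_of_le_of_lt hpq ?_
    have h1 : 1 / ((n : ℝ) + 1) < 1 / (1 / ε) := by
      apply one_div_lt_one_div_of_lt (by positivity)
      linarith
    simpa using h1
  have hdpos : 0 < |d| := abs_pos.2 hd0
  obtain ⟨N0, hN0⟩ := exists_nat_gt (2 / |d| + 1)
  -- steps
  have hstep : ∀ θ : ℝ, ∃ k : ℕ, k ≤ N0 ∧ ∃ N : ℤ, (N : ℝ) < θ + k * d ∧ θ + k * d < N + ε := by
    intro θ
    rcases lt_or_gt_of_ne hd0 with hneg | hpos
    · have hdd : |d| = -d := abs_of_neg hneg
      set N : ℤ := ⌊θ⌋ - 1 with hN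
      have h1 : (N : ℝ) + 1 ≤ θ := by rw [hN]; push_cast; linarith [Int.floor_le θ]
      have h2 : θ < N + 2 := by rw [hN]; push_cast; linarith [Int.lt_floor_add_one θ]
      set k : ℤ := ⌈(θ - N) / |d|⌉ - 1 with hk
      have hk1 : (k : ℝ) < (θ - N) / |d| := by
        rw [hk]; push_cast; linarith [Int.ceil_lt_add_one ((θ - N) / |d|)]
      have hk2 : (θ - N) / |d| - 1 ≤ k := by
        rw [hk]; push_cast; linarith [Int.le_ceil ((θ - N) / |d|)]
      have hk3 : 0 ≤ k := by
        have : (-1 : ℝ) < k := by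
          have : (0 : ℝ) < (θ - N) / |d| := by
            apply div_pos _ hdpos; linarith
          linarith
        have : (-1 : ℤ) < k := by exact_mod_cast this
        omega
      obtain ⟨k', hk'⟩ := Int.eq_ofNat_of_zero_le hk3
      have hkk : (k : ℝ) = k' := by rw [hk']; rfl
      rw [hkk] at hk1 hk2
      rw [lt_div_iff₀ hdpos] at hk1
      have hk4 : (θ - N) ≤ (k' + 1) * |d| := by
        rw [← div_le_iff₀ hdpos]; linarith
      refine ⟨k', ?_, N, ?_, ?_⟩
      · have h3 : (θ - N) / |d| ≤ 2 / |d| := by gcongr; linarith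
        have : (k' : ℝ) < N0 := by
          have : (k' : ℝ) < (θ - N) / |d| := by rw [lt_div_iff₀ hdpos]; exact hk1
          linarith
        exact_mod_cast this.le
      · rw [hdd] at hk1; linarith
      · rw [hdd] at hk4 hdε; linarith
    · have hdd : |d| = d := abs_of_pos hpos
      set N : ℤ := ⌊θ⌋ + 2 with hN
      have h1 : θ < N - 1 := by rw [hN]; push_cast; linarith [Int.lt_floor_add_one θ]
      have h2 : (N : ℝ) - 2 ≤ θ := by rw [hN]; push_cast; linarith [Int.floor_le θ]
      set k : ℤ := ⌊(N - θ) / |d|⌋ + 1 with hk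
      have hk1 : (N - θ) / |d| < k := by
        rw [hk]; push_cast; linarith [Int.lt_floor_add_one ((N - θ) / |d|)]
      have hk2 : (k : ℝ) ≤ (N - θ) / |d| + 1 := by
        rw [hk]; push_cast; linarith [Int.floor_le ((N - θ) / |d|)]
      have hk3 : 0 ≤ k := by
        have : (0 : ℝ) < k := by
          refine lt_trans ?_ hk1
          apply div_pos _ hdpos; linarith
        have : (0 : ℤ) < k := by exact_mod_cast this
        omega
      obtain ⟨k', hk'⟩ := Int.eq_ofNat_of_zero_le hk3
      have hkk : (k : ℝ) = k' := by rw [hk']; rfl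
      rw [hkk] at hk1 hk2
      have hk4 : (k' - 1) * |d| ≤ N - θ := by
        rw [← le_div_iff₀ hdpos]; linarith
      have hk5 : N - θ < k' * |d| := by
        rw [← div_lt_iff₀ hdpos]; exact hk1
      refine ⟨k', ?_, N, ?_, ?_⟩
      · have h3 : (N - θ) / |d| ≤ 2 / |d| := by gcongr; linarith
        have : (k' : ℝ) ≤ N0 := by linarith
        exact_mod_cast this
      · rw [hdd] at hk5; linarith
      · rw [hdd] at hk4 hdε; linarith
  refine ⟨N0 * k0 + 1, by positivity, ?_⟩
  intro θ
  obtain ⟨k, hk, N, hN1, hN2⟩ := hstep θ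
  refine ⟨k * k0, by
    have : k * k0 ≤ N0 * k0 := by gcongr
    omega, ?_⟩
  have e1 : θ + ((k * k0 : ℕ) : ℝ) * a = (θ + k * d) + ((k * p : ℤ) : ℝ) := by
    have : (q : ℝ) = k0 := by rw [hk0]; rfl
    rw [hd, this]
    push_cast
    ring
  rw [e1, Int.fract_add_intCast]
  have e2 : ⌊θ + k * d⌋ = N := by
    rw [Int.floor_eq_iff]
    constructor <;> linarith
  rw [Int.fract, e2]
  constructor <;> linarith

lemma sqrt_indep (p q r : ℤ) (h : √2 * p + √3 * q + r = 0) : p = 0 ∧ q = 0 ∧ r = 0 := by
  have h2 : √2 ^ 2 = 2 := Real.sq_sqrt (by norm_num)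
  have h3 : √3 ^ 2 = 3 := Real.sq_sqrt (by norm_num)
  have hi2 : Irrational √2 := irrational_sqrt_two
  have hi3 : Irrational √3 := by
    have := Nat.prime_three.irrational_sqrt
    exact_mod_cast this
  -- first p = 0
  have hp : p = 0 := by
    by_contra hp
    have hpR : (p : ℝ) ≠ 0 := by exact_mod_cast hp
    -- 3 q^2 = 2 p^2 + r^2 + 2 √2 p r
    have e : 3 * (q : ℝ) ^ 2 = 2 * p ^ 2 + r ^ 2 + 2 * √2 * p * r := by
      have : √3 * q = -(√2 * p + r) := by linarith
      have h4 : (√3 * q) ^ 2 = (√2 * p + r) ^ 2 := by rw [this]; ring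
      nlinarith
    by_cases hr : r = 0
    · subst hr
      -- 3 q^2 = 2 p^2
      have e2 : (3 : ℤ) * q ^ 2 = 2 * p ^ 2 := by
        have : 3 * (q : ℝ) ^ 2 = 2 * p ^ 2 := by simpa using e
        exact_mod_cast this
      -- √6 irrational
      have h6 : Irrational √6 := by
        have h := irrational_sqrt_ofNat_iff (n := 6)
        rw [h]
        intro ⟨k, hk⟩
        change 6 = k * k at hk
        have : k ≤ 2 ∨ 3 ≤ k := by omega
        rcases this with h | h
        · interval_cases k <;> omega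
        · nlinarith
      apply h6
      have hq : (q : ℝ) ≠ 0 := by
        intro hq
        have : q = 0 := by exact_mod_cast hq
        rw [this] at e2
        have : p ^ 2 = 0 := by linarith
        exact hp (by simpa using this)
      refine ⟨(|2 * p / q| : ℚ), ?_⟩
      have e3 : (2 * (p : ℝ) / q) ^ 2 = 6 := by
        have : 3 * (q : ℝ) ^ 2 = 2 * p ^ 2 := by exact_mod_cast e2
        rw [div_pow, div_eq_iff (by positivity)]
        nlinarith
      push_cast
      rw [← e3, Real.sqrt_sq_eq_abs]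
    · have hrR : (r : ℝ) ≠ 0 := by exact_mod_cast hr
      apply hi2
      refine ⟨((3 * q ^ 2 - 2 * p ^ 2 - r ^ 2 : ℤ) : ℚ) / ((2 * p * r : ℤ) : ℚ), ?_⟩
      push_cast
      rw [div_eq_iff (by positivity)]
      linarith
  subst hp
  have hq : q = 0 := by
    by_contra hq
    have hqR : (q : ℝ) ≠ 0 := by exact_mod_cast hq
    apply hi3
    refine ⟨((-r : ℤ) : ℚ) / ((q : ℤ) : ℚ), ?_⟩
    push_cast
    rw [div_eq_iff hqR]
    simp at h
    linarith
  subst hq
  simp at h
  exact ⟨rfl, rfl, h⟩

lemma tt_inj : Function.Injective tt := by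
  intro q q' h
  unfold tt at h
  rw [Int.fract_eq_fract] at h
  obtain ⟨z, hz⟩ := h
  have := sqrt_indep (q.1 - q'.1) (q.2 - q'.2) (-z) (by push_cast; linarith)
  ext <;> omega

/-- the set of holes -/
theorem exists_holes : ∃ D : Set (ℤ × ℤ), (∀ q ∈ D, 0 < tt q ∧ tt q < 1 / 4) ∧
    (∀ η > 0, {q ∈ D | η ≤ tt q}.Finite) ∧
    ∀ (K : ℝ) (g : ℤ × ℤ → ℂ) (Λ : AddSubgroup ℂ), ¬ BL K Dᶜ g Λ := by
  have hirr : Irrational √2 := irrational_sqrt_two
  have hret : ∀ j : ℕ, ∃ T : ℕ, 0 < T ∧ ∀ θ : ℝ, ∃ l < T,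
      0 < Int.fract (θ + l * √2) ∧ Int.fract (θ + l * √2) < 1 / (j + 4 : ℝ) := by
    intro j
    apply return_time _ hirr _ (by positivity)
    rw [div_le_one (by positivity)]
    have : (0 : ℝ) ≤ j := Nat.cast_nonneg j
    linarith
  choose T hT hTr using hret
  have hno := fun j : ℕ => no_BL (j + 1 : ℝ) (by simp) (T j) (hT j)
  choose r0 L m ρ hno' using hno
  -- centers
  let c : ℕ → ℤ := fun j => (∑ i ∈ Finset.range j, (2 * (ρ i : ℤ) + 1)) + ρ j
  have hcsep : ∀ i j, i < j → c i + ρ i < c j - ρ j := by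
    intro i j hij
    have h1 : ∑ k ∈ Finset.range (i + 1), (2 * (ρ k : ℤ) + 1) ≤
        ∑ k ∈ Finset.range j, (2 * (ρ k : ℤ) + 1) := by
      apply Finset.sum_le_sum_of_subset_of_nonneg
      · intro k hk
        rw [Finset.mem_range] at *
        omega
      · intro k _ _
        positivity
    rw [Finset.sum_range_succ] at h1
    simp only [c]
    linarith
  let P : ℕ → ℤ × ℤ := fun j => (c j, 0)
  let inB : ℕ → ℤ × ℤ → Prop := fun j q => |q.1| ≤ ρ j ∧ |q.2| ≤ ρ j
  have hdisj : ∀ i j q, inB i (q - P i) → inB j (q - P j) → i = j := by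
    intro i j q hi hj
    simp only [inB, P, Prod.fst_sub, Prod.snd_sub, abs_le] at hi hj
    by_contra hne
    rcases lt_or_gt_of_ne hne with h | h
    · have := hcsep _ _ h; omega
    · have := hcsep _ _ h; omega
  let D : Set (ℤ × ℤ) := {q | ∃ j, inB j (q - P j) ∧ q - P j ∈ Pat (r0 j) (L j) (m j) ∧
    0 < tt q ∧ tt q < 1 / (j + 4 : ℝ)}
  have hD14 : ∀ q ∈ D, 0 < tt q ∧ tt q < 1 / 4 := by
    rintro q ⟨j, -, -, h1, h2⟩
    refine ⟨h1, h2.trans_le ?_⟩
    apply one_div_le_one_div_of_le (by norm_num)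
    have : (0 : ℝ) ≤ j := Nat.cast_nonneg j
    linarith
  refine ⟨D, hD14, ?_, ?_⟩
  · intro η hη
    obtain ⟨N, hN⟩ := exists_nat_gt (1 / η)
    have hsub : {q ∈ D | η ≤ tt q} ⊆ ⋃ j ∈ Finset.range N,
        ((Set.Icc (c j - ρ j) (c j + ρ j)) ×ˢ (Set.Icc (-(ρ j : ℤ)) (ρ j))) := by
      rintro q ⟨⟨j, h1, -, h2, h3⟩, h4⟩
      simp only [Set.mem_iUnion, Finset.mem_range]
      refine ⟨j, ?_, ?_⟩
      · have h5 : η < 1 / (j + 4 : ℝ) := lt_of_le_of_lt h4 h3
        rw [lt_div_iff₀ (by positivity)] at h5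
        rw [div_lt_iff₀ hη] at hN
        have h6 : (j : ℝ) < N := by
          by_contra hcon
          push Not at hcon
          nlinarith
        exact_mod_cast h6
      · simp only [inB, P, Prod.fst_sub, Prod.snd_sub, abs_le] at h1
        simp only [Set.mem_prod, Set.mem_Icc]
        omega
    refine Set.Finite.subset ?_ hsub
    apply Set.Finite.biUnion (Finset.finite_toSet _)
    intro j _
    exact (Set.finite_Icc _ _).prod (Set.finite_Icc _ _)
  · intro K g Λ hBL
    -- star
    classical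
    let st : ℤ × ℤ → ℤ × ℤ := fun q => if q ∈ Dᶜ then q else q + (1, 0)
    have hst : Star Dᶜ st := by
      refine ⟨?_, ?_, ?_⟩
      · intro q
        by_cases hq : q ∈ Dᶜ
        · simp only [st, if_pos hq]; exact hq
        · simp only [st, if_neg hq]
          rw [Set.notMem_compl_iff] at hq
          intro hq1
          have h1 := hD14 q hq
          have h2 := hD14 _ hq1
          have e : tt (q + (1, 0)) = Int.fract (tt q + √2) := by
            have e0 : tt q + √2 = (√2 * ((q + (1, 0) : ℤ × ℤ).1 : ℝ) + √3 * (q + (1, 0) : ℤ × ℤ).2)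
                - (⌊√2 * q.1 + √3 * q.2⌋ : ℤ) := by
              unfold tt Int.fract
              simp only [Prod.fst_add, Prod.snd_add]
              push_cast
              ring
            rw [e0, Int.fract_sub_intCast]
            rfl
          have h3 : √2 < 1.42 := by
            rw [Real.sqrt_lt' (by norm_num)]; norm_num
          have h4 : 1.41 < √2 := by
            rw [Real.lt_sqrt (by norm_num)]; norm_num
          have h5 : ⌊tt q + √2⌋ = 1 := by
            rw [Int.floor_eq_iff]
            push_cast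
            constructor <;> norm_num at * <;> linarith
          rw [e, Int.fract, h5] at h2
          push_cast at h2
          norm_num at *
          linarith [h2.2]
      · intro q
        by_cases hq : q ∈ Dᶜ
        · simp only [st, if_pos hq]; simp
        · simp only [st, if_neg hq]
          rw [Prod.dist_eq, Int.dist_eq, Int.dist_eq]
          simp
      · intro q hq
        simp only [st, if_pos hq]
    obtain ⟨j, hj⟩ := exists_nat_ge K
    have hBL' : BL (j + 1 : ℝ) Dᶜ g Λ := by
      have hKj : K ≤ j + 1 := by linarith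
      refine ⟨hBL.bij, ?_, ?_, ?_⟩
      · intro q hq q' hq'
        exact (hBL.up q hq q' hq').trans (by gcongr)
      · intro q hq q' hq'
        exact (hBL.lo q hq q' hq').trans (by gcongr)
      · intro x
        obtain ⟨l, hl, hxl⟩ := hBL.cov x
        exact ⟨l, hl, hxl.trans hKj⟩
    -- translate
    refine hno' j {q | 0 < tt (q + P j) ∧ tt (q + P j) < 1 / (j + 4 : ℝ)} {q | q + P j ∈ Dᶜ} ?_ ?_
      (fun q => g (q + P j)) Λ (fun q => st (q + P j) - P j) ?_ ?_
    · intro x y
      obtain ⟨l, hl, hl2⟩ := hTr j (√2 * (x + c j) + √3 * y)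
      refine ⟨l, hl, ?_⟩
      have e : tt ((x + (l : ℤ), y) + P j) = Int.fract (√2 * (x + c j) + √3 * y + l * √2) := by
        unfold tt
        congr 1
        simp only [P, Prod.fst_add, Prod.snd_add]
        push_cast
        ring
      rw [Set.mem_ofPred_eq, e]
      exact hl2
    · intro q hq1 hq2
      have hin : inB j ((q + P j) - P j) := by
        rw [add_sub_cancel_right]; exact ⟨hq1, hq2⟩
      rw [Set.mem_ofPred_eq, Set.mem_compl_iff, not_iff_not]
      constructor
      · rintro ⟨i, h1, h2, h3, h4⟩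
        have hij : i = j := hdisj i j _ h1 hin
        subst hij
        rw [add_sub_cancel_right] at h2
        exact ⟨⟨h3, h4⟩, h2⟩
      · rintro ⟨⟨h3, h4⟩, h2⟩
        exact ⟨j, hin, by rw [add_sub_cancel_right]; exact h2, h3, h4⟩
    · refine ⟨⟨?_, ?_, ?_⟩, ?_, ?_, hBL'.cov⟩
      · intro q hq
        exact hBL'.bij.mapsTo hq
      · intro q hq q' hq' he
        exact add_right_cancel (hBL'.bij.injOn hq hq' he)
      · intro l hl
        obtain ⟨q, hq, rfl⟩ := hBL'.bij.surjOn hl
        refine ⟨q - P j, ?_, ?_⟩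
        · rw [Set.mem_ofPred_eq, sub_add_cancel]; exact hq
        · simp only [sub_add_cancel]
      · intro q hq q' hq'
        have := hBL'.up _ hq _ hq'
        rwa [dist_add_right] at this
      · intro q hq q' hq'
        have := hBL'.lo _ hq _ hq'
        rwa [dist_add_right] at this
    · refine ⟨?_, ?_, ?_⟩
      · intro q
        rw [Set.mem_ofPred_eq, sub_add_cancel]
        exact hst.mem _
      · intro q
        have h1 := hst.near (q + P j)
        rw [← dist_add_right _ _ (P j), sub_add_cancel]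
        exact h1
      · intro q hq
        change st (q + P j) - P j = q
        rw [hst.fix _ hq, add_sub_cancel_right]

end Pool.Agent.helper62.CP
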