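import Mathlib
import Pool.Agent.helper62.CPHoles

set_option autoImplicit false

namespace Pool.Agent.helper62.CP

open Real

abbrev V3 : Type := EuclideanSpace ℝ (Fin 3)

/-- the functional whose kernel is the physical space -/
noncomputable def phi : V3 →L[ℝ] ℝ :=
  √2 • (EuclideanSpace.proj 0 : V3 →L[ℝ] ℝ) + √3 • (EuclideanSpace.proj 1 : V3 →L[ℝ] ℝ) +
    (EuclideanSpace.proj 2 : V3 →L[ℝ] ℝ)

lemma phi_apply (x : V3) : phi x = √2 * x 0 + √3 * x 1 + x 2 := by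
  simp [phi]

noncomputable def uu : V3 := !₂[√2 / 4, 0, 1]

lemma phi_uu : phi uu = 3 / 2 := by
  rw [phi_apply]
  have h2 : √2 * √2 = 2 := Real.mul_self_sqrt (by norm_num)
  simp [uu]
  linarith

noncomputable def EE : Submodule ℝ V3 := LinearMap.ker (phi : V3 →ₗ[ℝ] ℝ)

noncomputable def FF : Submodule ℝ V3 := Submodule.span ℝ {uu}

lemma mem_EE {x : V3} : x ∈ EE ↔ phi x = 0 := by
  simp [EE]

lemma mem_FF {x : V3} : x ∈ FF ↔ ∃ a : ℝ, a • uu = x := Submodule.mem_span_singleton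

lemma sub_mem_EE (x : V3) : x - (phi x / (3 / 2)) • uu ∈ EE := by
  rw [mem_EE, map_sub, map_smul, phi_uu, smul_eq_mul]
  ring

lemma isCompl : IsCompl EE FF := by
  constructor
  · rw [Submodule.disjoint_def]
    intro x hx hx'
    obtain ⟨a, rfl⟩ := mem_FF.1 hx'
    rw [mem_EE, map_smul, phi_uu, smul_eq_mul] at hx
    have : a = 0 := by linarith
    simp [this]
  · rw [codisjoint_iff, eq_top_iff]
    intro x _
    rw [Submodule.mem_sup]
    exact ⟨_, sub_mem_EE x, (phi x / (3 / 2)) • uu, mem_FF.2 ⟨_, rfl⟩, by abel⟩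

lemma projE (h : IsCompl EE FF) (x : V3) :
    ((Submodule.projectionOnto EE FF h x : EE) : V3) = x - (phi x / (3 / 2)) • uu := by
  have e : x = (x - (phi x / (3 / 2)) • uu) + (phi x / (3 / 2)) • uu := by abel
  have hF : (phi x / (3 / 2)) • uu ∈ FF := mem_FF.2 ⟨_, rfl⟩
  conv_lhs => rw [e]
  rw [map_add, Submodule.projectionOnto_apply_of_mem_left h (sub_mem_EE x),
    Submodule.projectionOnto_apply_of_mem_right h hF]
  simp

lemma projF (h : IsCompl FF EE) (x : V3) :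
    ((Submodule.projectionOnto FF EE h x : FF) : V3) = (phi x / (3 / 2)) • uu := by
  have e : x = (x - (phi x / (3 / 2)) • uu) + (phi x / (3 / 2)) • uu := by abel
  have hF : (phi x / (3 / 2)) • uu ∈ FF := mem_FF.2 ⟨_, rfl⟩
  conv_lhs => rw [e]
  rw [map_add, Submodule.projectionOnto_apply_of_mem_left h hF,
    Submodule.projectionOnto_apply_of_mem_right h (sub_mem_EE x)]
  simp

/-- the integer points -/
def ZZ : Set V3 := {x | ∀ i, ∃ z : ℤ, (EuclideanSpace.proj i : V3 →L[ℝ] ℝ) x = (z : ℝ)}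

lemma mem_ZZ {x : V3} : x ∈ ZZ ↔ ∃ a b c : ℤ, x = !₂[(a : ℝ), (b : ℝ), (c : ℝ)] := by
  constructor
  · intro h
    obtain ⟨a, ha⟩ := h 0
    obtain ⟨b, hb⟩ := h 1
    obtain ⟨c, hc⟩ := h 2
    refine ⟨a, b, c, ?_⟩
    have ha' : x 0 = a := ha
    have hb' : x 1 = b := hb
    have hc' : x 2 = c := hc
    ext i
    fin_cases i <;> simp [ha', hb', hc']
  · rintro ⟨a, b, c, rfl⟩ i
    fin_cases i
    · exact ⟨a, by simp⟩
    · exact ⟨b, by simp⟩
    · exact ⟨c, by simp⟩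

lemma injOn_projE (h : IsCompl EE FF) :
    Set.InjOn (fun x => ((Submodule.projectionOnto EE FF h x : EE) : V3)) ZZ := by
  intro x hx y hy hxy
  simp only [projE] at hxy
  obtain ⟨a, b, c, rfl⟩ := mem_ZZ.1 hx
  obtain ⟨a', b', c', rfl⟩ := mem_ZZ.1 hy
  set s := phi !₂[(a : ℝ), (b : ℝ), (c : ℝ)] / (3 / 2) with hs
  set s' := phi !₂[(a' : ℝ), (b' : ℝ), (c' : ℝ)] / (3 / 2) with hs'
  have h0 := congrArg (fun v : V3 => v 0) hxy
  have h1 := congrArg (fun v : V3 => v 1) hxy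
  have h2 := congrArg (fun v : V3 => v 2) hxy
  simp [uu] at h0 h1 h2
  have hss : s = s' := by
    by_contra hne
    have hne' : s - s' ≠ 0 := sub_ne_zero.2 hne
    apply irrational_sqrt_two
    refine ⟨(4 * (a - a') : ℚ) / (c - c' : ℚ), ?_⟩
    have h3 : (c : ℝ) - c' = s - s' := by linarith
    push_cast
    rw [h3, div_eq_iff hne']
    linarith
  have ha : (a : ℝ) = a' := by rw [hss] at h0; linarith
  have hc : (c : ℝ) = c' := by rw [hss] at h2; linarith
  rw [ha, hc, h1]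

/-- identification of the internal space with the line -/
noncomputable def eF : FF ≃L[ℝ] ℝ :=
  LinearEquiv.toContinuousLinearEquiv
    (LinearEquiv.ofBijective ((phi : V3 →ₗ[ℝ] ℝ).comp FF.subtype) (by
      constructor
      · intro x y hxy
        obtain ⟨a, ha⟩ := mem_FF.1 x.2
        obtain ⟨b, hb⟩ := mem_FF.1 y.2
        simp only [LinearMap.coe_comp, Function.comp, Submodule.coe_subtype,
          ContinuousLinearMap.coe_coe] at hxy
        rw [← ha, ← hb, map_smul, map_smul, phi_uu, smul_eq_mul, smul_eq_mul] at hxy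
        have : a = b := by linarith
        ext1
        rw [← ha, ← hb, this]
      · intro t
        refine ⟨⟨(t / (3 / 2)) • uu, mem_FF.2 ⟨_, rfl⟩⟩, ?_⟩
        simp only [LinearMap.coe_comp, Function.comp, Submodule.coe_subtype,
          ContinuousLinearMap.coe_coe]
        rw [map_smul, phi_uu, smul_eq_mul]
        ring))

lemma eF_apply (v : FF) : eF v = phi v := rfl

lemma eF_projF (h : IsCompl FF EE) (x : V3) : eF (Submodule.projectionOnto FF EE h x) = phi x := by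
  rw [eF_apply, projF, map_smul, phi_uu, smul_eq_mul]
  ring

lemma dense_phi : Dense (phi '' ZZ) := by
  have h1 : Dense (AddSubgroup.closure {√2, 1} : Set ℝ) := by
    rw [dense_addSubgroupClosure_pair_iff, div_one]
    exact irrational_sqrt_two
  refine h1.mono ?_
  intro t ht
  rw [SetLike.mem_coe, AddSubgroup.mem_closure_pair] at ht
  obtain ⟨a, c, rfl⟩ := ht
  refine ⟨!₂[(a : ℝ), ((0 : ℤ) : ℝ), (c : ℝ)], mem_ZZ.2 ⟨a, 0, c, rfl⟩, ?_⟩
  rw [phi_apply]
  simp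
  ring

lemma dense_projF (h : IsCompl FF EE) :
    Dense ((fun x => Submodule.projectionOnto FF EE h x) '' ZZ) := by
  have h1 : (fun x => Submodule.projectionOnto FF EE h x) '' ZZ = eF.symm '' (phi '' ZZ) := by
    rw [Set.image_image]
    apply Set.image_congr
    intro x _
    rw [← eF_projF h, ContinuousLinearEquiv.symm_apply_apply]
  rw [h1]
  exact eF.symm.surjective.denseRange.dense_image eF.symm.continuous dense_phi

/-- the window in the line -/
def WR (D : Set (ℤ × ℤ)) : Set ℝ := Set.Ico 0 1 \ (tt '' D)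

lemma frontier_WR (D : Set (ℤ × ℤ))
    (hfin : ∀ η > 0, {q ∈ D | η ≤ tt q}.Finite) : (frontier (WR D)).Countable := by
  have hc : ({0, 1} ∪ tt '' D : Set ℝ).Countable := by
    apply Set.Countable.union
    · exact (Set.countable_insert.2 (Set.countable_singleton _))
    · exact (Set.to_countable D).image _
  refine hc.mono ?_
  intro x hx
  by_contra hcon
  simp only [Set.mem_union, Set.mem_insert_iff, Set.mem_singleton_iff, not_or] at hcon
  obtain ⟨⟨hx0, hx1⟩, hxD⟩ := hcon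
  rw [frontier, Set.mem_sdiff] at hx
  obtain ⟨hx2, hx3⟩ := hx
  rcases lt_or_gt_of_ne hx0 with h | h
  · -- x < 0
    have : x ∈ closure (Set.Ico (0 : ℝ) 1) := closure_mono Set.sdiff_subset hx2
    have h2 : x ∈ Set.Icc (0 : ℝ) 1 := closure_minimal Set.Ico_subset_Icc_self isClosed_Icc this
    linarith [h2.1]
  · rcases lt_or_gt_of_ne hx1 with h' | h'
    · apply hx3
      have hfin' := (hfin (x / 2) (by linarith)).image tt
      have hopen : IsOpen (Set.Ioo (x / 2) 1 \ (tt '' {q ∈ D | x / 2 ≤ tt q})) :=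
        isOpen_Ioo.sdiff hfin'.isClosed
      refine mem_interior.2 ⟨_, ?_, hopen, ?_⟩
      · rintro y ⟨⟨hy1, hy2⟩, hy3⟩
        refine ⟨⟨by linarith, hy2⟩, ?_⟩
        rintro ⟨q, hq, rfl⟩
        exact hy3 ⟨q, ⟨hq, hy1.le⟩, rfl⟩
      · refine ⟨⟨by linarith, h'⟩, ?_⟩
        rintro ⟨q, hq, rfl⟩
        exact hxD ⟨q, hq.1, rfl⟩
    · have : x ∈ closure (Set.Ico (0 : ℝ) 1) := closure_mono Set.sdiff_subset hx2
      have h2 : x ∈ Set.Icc (0 : ℝ) 1 := closure_minimal Set.Ico_subset_Icc_self isClosed_Icc this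
      linarith [h2.2]

lemma interior_WR (D : Set (ℤ × ℤ)) (hD : ∀ q ∈ D, 0 < tt q ∧ tt q < 1 / 4) :
    (1 / 2 : ℝ) ∈ interior (WR D) := by
  refine mem_interior.2 ⟨Set.Ioo (1 / 4) 1, ?_, isOpen_Ioo, by norm_num⟩
  rintro y ⟨hy1, hy2⟩
  refine ⟨⟨by linarith, hy2⟩, ?_⟩
  rintro ⟨q, hq, rfl⟩
  linarith [(hD q hq).2]

/-- the window in the internal space -/
def WF (D : Set (ℤ × ℤ)) : Set FF := eF ⁻¹' WR D

instance : Nontrivial FF := eF.symm.toEquiv.symm.nontrivial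

lemma volume_frontier_WF (D : Set (ℤ × ℤ))
    (hfin : ∀ η > 0, {q ∈ D | η ≤ tt q}.Finite) :
    MeasureTheory.volume (frontier (WF D)) = 0 := by
  have h1 : frontier (WF D) = eF ⁻¹' frontier (WR D) := by
    exact (eF.toHomeomorph.preimage_frontier (WR D)).symm
  rw [h1]
  have h2 : (eF ⁻¹' frontier (WR D)).Countable :=
    (frontier_WR D hfin).preimage eF.injective
  exact h2.measure_zero _

lemma interior_WF (D : Set (ℤ × ℤ)) (hD : ∀ q ∈ D, 0 < tt q ∧ tt q < 1 / 4) :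
    (interior (WF D)).Nonempty := by
  have h1 : interior (WF D) = eF ⁻¹' interior (WR D) := by
    exact (eF.toHomeomorph.preimage_interior (WR D)).symm
  rw [h1]
  exact ⟨eF.symm (1 / 2), by simpa using interior_WR D hD⟩

lemma bounded_WF (D : Set (ℤ × ℤ)) : Bornology.IsBounded (WF D) := by
  have h1 : IsCompact (eF ⁻¹' (Set.Icc 0 1)) := eF.toHomeomorph.isCompact_preimage.2 isCompact_Icc
  refine h1.isBounded.subset ?_
  apply Set.preimage_mono
  exact Set.sdiff_subset.trans Set.Ico_subset_Icc_self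

/-- the point of the cut-and-project set with index `m` -/
noncomputable def yy (m : ℤ × ℤ) : V3 :=
  !₂[(m.1 : ℝ) - √2 / 6 * tt m, (m.2 : ℝ), tt m / 3 - (√2 * m.1 + √3 * m.2)]

lemma tt_mem (m : ℤ × ℤ) : 0 ≤ tt m ∧ tt m < 1 := ⟨Int.fract_nonneg _, Int.fract_lt_one _⟩

lemma image_eq (h : IsCompl EE FF) (D : Set (ℤ × ℤ)) :
    (fun x => ((Submodule.projectionOnto EE FF h x : EE) : V3)) ''
      {x : V3 | (∀ i, ∃ z : ℤ, (EuclideanSpace.proj i : V3 →L[ℝ] ℝ) x = (z : ℝ)) ∧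
        Submodule.projectionOnto FF EE h.symm x ∈ WF D} = yy '' Dᶜ := by
  ext v
  constructor
  · rintro ⟨x, ⟨hx1, hx2⟩, rfl⟩
    obtain ⟨a, b, c, rfl⟩ := mem_ZZ.1 hx1
    change eF (Submodule.projectionOnto FF EE h.symm _) ∈ WR D at hx2
    rw [eF_projF] at hx2
    obtain ⟨⟨h0, h1⟩, h2⟩ := hx2
    have hphi : phi !₂[(a : ℝ), (b : ℝ), (c : ℝ)] = √2 * a + √3 * b + c := by
      rw [phi_apply]; simp
    rw [hphi] at h0 h1 h2
    have hfl : ⌊√2 * (a : ℝ) + √3 * b⌋ = -c := by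
      rw [Int.floor_eq_iff]
      push_cast
      constructor <;> linarith
    have htt : tt (a, b) = √2 * a + √3 * b + c := by
      unfold tt Int.fract
      simp only
      rw [hfl]
      push_cast
      ring
    refine ⟨(a, b), ?_, ?_⟩
    · intro hD
      exact h2 ⟨(a, b), hD, htt⟩
    · simp only [projE]
      rw [hphi, ← htt]
      have hc : (c : ℝ) = tt (a, b) - (√2 * a + √3 * b) := by rw [htt]; ring
      ext i
      fin_cases i
      · simp [yy, uu]; ring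
      · simp [yy, uu]
      · simp [yy, uu]; rw [hc]; ring
  · rintro ⟨m, hm, rfl⟩
    set s : ℝ := √2 * m.1 + √3 * m.2 with hs
    have htt : tt m = s - ⌊s⌋ := rfl
    have hphi : phi !₂[(m.1 : ℝ), (m.2 : ℝ), ((-⌊s⌋ : ℤ) : ℝ)] = tt m := by
      rw [phi_apply, htt]
      change √2 * (m.1 : ℝ) + √3 * (m.2 : ℝ) + ((-⌊s⌋ : ℤ) : ℝ) = s - ⌊s⌋
      rw [hs]; push_cast; ring
    refine ⟨!₂[(m.1 : ℝ), (m.2 : ℝ), ((-⌊s⌋ : ℤ) : ℝ)], ⟨?_, ?_⟩, ?_⟩
    · exact mem_ZZ.2 ⟨_, _, _, rfl⟩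
    · change eF (Submodule.projectionOnto FF EE h.symm _) ∈ WR D
      rw [eF_projF, hphi]
      refine ⟨tt_mem m, ?_⟩
      rintro ⟨m', hm', he⟩
      exact hm (tt_inj he ▸ hm')
    · simp only [projE]
      rw [hphi]
      ext i
      fin_cases i
      · simp [yy, uu]; ring
      · simp [yy, uu]
      · simp [yy, uu]
        rw [htt]; ring

lemma norm_le_sum (v : V3) : ‖v‖ ≤ |v 0| + |v 1| + |v 2| := by
  rw [EuclideanSpace.norm_eq, Real.sqrt_le_left (by positivity), Fin.sum_univ_three]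
  simp only [Real.norm_eq_abs]
  nlinarith [abs_nonneg (v 0), abs_nonneg (v 1), abs_nonneg (v 2),
    mul_nonneg (abs_nonneg (v 0)) (abs_nonneg (v 1)),
    mul_nonneg (abs_nonneg (v 0)) (abs_nonneg (v 2)),
    mul_nonneg (abs_nonneg (v 1)) (abs_nonneg (v 2))]

lemma coord_le (v : V3) (i : Fin 3) : |v i| ≤ ‖v‖ := by
  have := PiLp.norm_apply_le v i
  simpa using this

lemma sqrt2_bds : 1 ≤ √2 ∧ √2 ≤ 2 := by
  constructor
  · exact (Real.le_sqrt' (by norm_num)).2 (by norm_num)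
  · exact Real.sqrt_le_iff.2 ⟨by norm_num, by norm_num⟩

lemma sqrt3_bds : 0 ≤ √3 ∧ √3 ≤ 2 := by
  constructor
  · positivity
  · exact Real.sqrt_le_iff.2 ⟨by norm_num, by norm_num⟩

lemma yy_upper (m m' : ℤ × ℤ) : ‖yy m - yy m'‖ ≤ 10 * dist m m' := by
  by_cases hmm : m = m'
  · simp [hmm]
  have h1 := one_le_dist hmm
  have h2 := dist_le_iff.1 (le_refl (dist m m'))
  obtain ⟨h3, h4⟩ := h2
  have ht := tt_mem m
  have ht' := tt_mem m'
  have htt : |tt m - tt m'| ≤ 1 := by rw [abs_le]; constructor <;> linarith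
  have hs2 := sqrt2_bds
  have hs3 := sqrt3_bds
  refine (norm_le_sum _).trans ?_
  have e0 : (yy m - yy m') 0 = ((m.1 : ℝ) - m'.1) - √2 / 6 * (tt m - tt m') := by
    simp [yy]; ring
  have e1 : (yy m - yy m') 1 = (m.2 : ℝ) - m'.2 := by
    simp [yy]
  have e2 : (yy m - yy m') 2 = (tt m - tt m') / 3 - √2 * ((m.1 : ℝ) - m'.1)
      - √3 * ((m.2 : ℝ) - m'.2) := by
    simp [yy]; ring
  have f0 : |(yy m - yy m') 0| ≤ dist m m' + 1 := by
    rw [e0]
    refine (abs_sub _ _).trans ?_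
    rw [abs_mul, abs_of_nonneg (show 0 ≤ √2 / 6 by positivity)]
    nlinarith [abs_nonneg (tt m - tt m')]
  have f1 : |(yy m - yy m') 1| ≤ dist m m' := by rw [e1]; exact h4
  have f2 : |(yy m - yy m') 2| ≤ 1 + 2 * dist m m' + 2 * dist m m' := by
    rw [e2]
    refine (abs_sub _ _).trans ?_
    refine (add_le_add (abs_sub _ _) le_rfl).trans ?_
    rw [abs_mul, abs_mul, abs_div, abs_of_nonneg (show 0 ≤ √2 by positivity),
      abs_of_nonneg (show 0 ≤ √3 by positivity)]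
    have g1 : √2 * |(m.1 : ℝ) - m'.1| ≤ 2 * dist m m' := by
      apply mul_le_mul hs2.2 h3 (abs_nonneg _) (by norm_num)
    have g2 : √3 * |(m.2 : ℝ) - m'.2| ≤ 2 * dist m m' := by
      apply mul_le_mul hs3.2 h4 (abs_nonneg _) (by norm_num)
    have g3 : |tt m - tt m'| / |(3 : ℝ)| ≤ 1 := by
      rw [abs_of_pos (by norm_num : (0 : ℝ) < 3)]
      linarith
    linarith
  linarith

lemma yy_lower (m m' : ℤ × ℤ) : dist m m' ≤ 2 * ‖yy m - yy m'‖ := by
  rw [dist_le_iff]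
  have ht := tt_mem m
  have ht' := tt_mem m'
  have htt : |tt m - tt m'| ≤ 1 := by rw [abs_le]; constructor <;> linarith
  have hs2 := sqrt2_bds
  constructor
  · by_cases h : m.1 = m'.1
    · rw [h]; simp
    · have h1 : (1 : ℝ) ≤ |(m.1 : ℝ) - m'.1| := by
        have : 1 ≤ dist m.1 m'.1 := Int.pairwise_one_le_dist h
        rwa [Int.dist_eq] at this
      have e0 : (m.1 : ℝ) - m'.1 = (yy m - yy m') 0 + √2 / 6 * (tt m - tt m') := by
        simp [yy]; ring
      have h2 := coord_le (yy m - yy m') 0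
      have h3 : |(m.1 : ℝ) - m'.1| ≤ |(yy m - yy m') 0| + √2 / 6 * |tt m - tt m'| := by
        conv_lhs => rw [e0]
        refine (abs_add_le _ _).trans ?_
        rw [abs_mul, abs_of_nonneg (show 0 ≤ √2 / 6 by positivity)]
      have h4 : √2 / 6 * |tt m - tt m'| ≤ 1 / 2 := by
        nlinarith [abs_nonneg (tt m - tt m')]
      linarith
  · have e1 : (m.2 : ℝ) - m'.2 = (yy m - yy m') 1 := by
      simp [yy]
    rw [e1]
    have h2 := coord_le (yy m - yy m') 1
    linarith [norm_nonneg (yy m - yy m')]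

lemma yy_inj : Function.Injective yy := by
  intro m m' h
  have := yy_lower m m'
  rw [h, sub_self, norm_zero, mul_zero] at this
  exact dist_le_zero.1 this

lemma finrank_EE : Module.finrank ℝ EE = 2 := by
  have h1 := Submodule.finrank_add_eq_of_isCompl isCompl
  have h2 : Module.finrank ℝ FF = 1 := by
    rw [eF.toLinearEquiv.finrank_eq]
    simp
  have h3 : Module.finrank ℝ V3 = 3 := by simp
  omega

/-- an isometry of the physical space with the complex plane -/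
noncomputable def JJ : EE ≃ₗᵢ[ℝ] ℂ :=
  (stdOrthonormalBasis ℝ EE).equiv Complex.orthonormalBasisOneI (finCongr finrank_EE)

lemma exists_cov (L : AddSubgroup V3) (hspan : Submodule.span ℝ (L : Set V3) = EE) :
    ∃ C : ℝ, ∀ v ∈ EE, ∃ l ∈ L, ‖v - l‖ ≤ C := by
  have hfg : (Submodule.span ℝ (L : Set V3)).FG := by
    rw [hspan]
    exact IsNoetherian.noetherian EE
  rw [Submodule.fg_span_iff_fg_span_finset_subset] at hfg
  obtain ⟨s, hs, hss⟩ := hfg
  rw [hspan] at hss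
  refine ⟨∑ a ∈ s, ‖a‖, ?_⟩
  intro v hv
  rw [hss, Submodule.mem_span_finset] at hv
  obtain ⟨c, -, rfl⟩ := hv
  refine ⟨∑ a ∈ s, ⌊c a⌋ • a, L.sum_mem fun a ha => L.zsmul_mem (hs ha) _, ?_⟩
  rw [← Finset.sum_sub_distrib]
  refine (norm_sum_le _ _).trans (Finset.sum_le_sum fun a _ => ?_)
  rw [← Int.cast_smul_eq_zsmul ℝ, ← sub_smul, norm_smul, Real.norm_eq_abs]
  have h1 : |c a - ⌊c a⌋| ≤ 1 := by
    rw [abs_le]
    constructor
    · linarith [Int.floor_le (c a)]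
    · linarith [Int.lt_floor_add_one (c a)]
  nlinarith [norm_nonneg a]

/-- There is no bi-Lipschitz bijection of the holed cut-and-project set onto a lattice. -/
theorem no_bilip (D : Set (ℤ × ℤ))
    (hD : ∀ (K : ℝ) (g : ℤ × ℤ → ℂ) (Λ : AddSubgroup ℂ), ¬ BL K Dᶜ g Λ)
    (L : AddSubgroup V3) (hL : (L : Set V3) ⊆ (EE : Set V3))
    (hspan : Submodule.span ℝ (L : Set V3) = EE) (f : V3 → V3) (c : ℝ)
    (hbij : Set.BijOn f (yy '' Dᶜ) (L : Set V3))
    (hdist : ∀ y₁ ∈ yy '' Dᶜ, ∀ y₂ ∈ yy '' Dᶜ,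
      dist y₁ y₂ ≤ c * dist (f y₁) (f y₂) ∧ dist (f y₁) (f y₂) ≤ c * dist y₁ y₂) : False := by
  classical
  obtain ⟨C, hC⟩ := exists_cov L hspan
  let ψ : ℂ →ₗ[ℝ] V3 := EE.subtype.comp JJ.symm.toLinearEquiv.toLinearMap
  have hψE : ∀ z, ψ z ∈ EE := fun z => (JJ.symm z).2
  have hψJ : ∀ (v : V3) (hv : v ∈ EE), ψ (JJ ⟨v, hv⟩) = v := by
    intro v hv
    change ((JJ.symm (JJ ⟨v, hv⟩) : EE) : V3) = v
    rw [LinearIsometryEquiv.symm_apply_apply]
  have hψn : ∀ z, ‖ψ z‖ = ‖z‖ := by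
    intro z
    change ‖JJ.symm z‖ = ‖z‖
    exact JJ.symm.norm_map z
  have hψinj : Function.Injective ψ := by
    intro z w hzw
    have h : ‖ψ (z - w)‖ = 0 := by rw [map_sub, hzw, sub_self, norm_zero]
    rw [hψn, norm_eq_zero, sub_eq_zero] at h
    exact h
  let Λ : AddSubgroup ℂ := L.comap ψ.toAddMonoidHom
  have hΛ : ∀ z, z ∈ Λ ↔ ψ z ∈ L := fun z => Iff.rfl
  let g : ℤ × ℤ → ℂ := fun m => if h : f (yy m) ∈ EE then JJ ⟨f (yy m), h⟩ else 0
  have hfE : ∀ m ∈ Dᶜ, f (yy m) ∈ EE := fun m hm => hL (hbij.mapsTo ⟨m, hm, rfl⟩)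
  have hψg : ∀ m ∈ Dᶜ, ψ (g m) = f (yy m) := by
    intro m hm
    simp only [g, dif_pos (hfE m hm)]
    exact hψJ _ _
  have hgdist : ∀ m ∈ Dᶜ, ∀ m' ∈ Dᶜ, ‖g m - g m'‖ = dist (f (yy m)) (f (yy m')) := by
    intro m hm m' hm'
    rw [← hψn, map_sub, hψg m hm, hψg m' hm', dist_eq_norm]
  set K : ℝ := max (max (|c| * 10) (2 * |c|)) (max C 0) with hK
  have hK1 : |c| * 10 ≤ K := le_max_of_le_left (le_max_left _ _)
  have hK2 : 2 * |c| ≤ K := le_max_of_le_left (le_max_right _ _)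
  have hK3 : C ≤ K := le_max_of_le_right (le_max_left _ _)
  have hc : c ≤ |c| := le_abs_self c
  refine hD K g Λ ⟨⟨?_, ?_, ?_⟩, ?_, ?_, ?_⟩
  · intro m hm
    change ψ (g m) ∈ L
    rw [hψg m hm]
    exact hbij.mapsTo ⟨m, hm, rfl⟩
  · intro m hm m' hm' he
    have h1 : f (yy m) = f (yy m') := by rw [← hψg m hm, ← hψg m' hm', he]
    exact yy_inj (hbij.injOn ⟨m, hm, rfl⟩ ⟨m', hm', rfl⟩ h1)
  · intro z hz
    obtain ⟨_, ⟨m, hm, rfl⟩, hm2⟩ := hbij.surjOn (show ψ z ∈ (L : Set V3) from hz)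
    refine ⟨m, hm, hψinj ?_⟩
    rw [hψg m hm, hm2]
  · intro m hm m' hm'
    rw [hgdist m hm m' hm']
    have h1 := (hdist _ ⟨m, hm, rfl⟩ _ ⟨m', hm', rfl⟩).2
    have h2 := yy_upper m m'
    rw [← dist_eq_norm] at h2
    calc dist (f (yy m)) (f (yy m')) ≤ c * dist (yy m) (yy m') := h1
      _ ≤ |c| * dist (yy m) (yy m') := by gcongr
      _ ≤ |c| * (10 * dist m m') := by gcongr
      _ = (|c| * 10) * dist m m' := by ring
      _ ≤ K * dist m m' := by gcongr
  · intro m hm m' hm'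
    rw [hgdist m hm m' hm']
    have h1 := (hdist _ ⟨m, hm, rfl⟩ _ ⟨m', hm', rfl⟩).1
    have h2 := yy_lower m m'
    rw [← dist_eq_norm] at h2
    calc dist m m' ≤ 2 * dist (yy m) (yy m') := h2
      _ ≤ 2 * (c * dist (f (yy m)) (f (yy m'))) := by gcongr
      _ ≤ 2 * (|c| * dist (f (yy m)) (f (yy m'))) := by gcongr
      _ = (2 * |c|) * dist (f (yy m)) (f (yy m')) := by ring
      _ ≤ K * dist (f (yy m)) (f (yy m')) := by gcongr
  · intro z
    obtain ⟨l, hl, hzl⟩ := hC (ψ z) (hψE z)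
    have hlE : l ∈ EE := hL hl
    refine ⟨JJ ⟨l, hlE⟩, ?_, ?_⟩
    · rw [hΛ, hψJ]; exact hl
    · rw [← hψn, map_sub, hψJ]
      exact hzl.trans hK3

end Pool.Agent.helper62.CP
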