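import Pool.Agent.helper23.HB.Stmts

/-!
# HB-CLK : the clocks along the lines
-/

open MeasureTheory ProbabilityTheory Set Filter Topology
open scoped ENNReal NNReal

namespace Pool.Agent.helper62.HB

open Pool.Agent.helper23.HB

theorem clk_zero (r : ℝ → ℝ) : clk r 0 = 0 := by
  unfold clk
  exact intervalIntegral.integral_same

theorem mCLK (hCK : St_CK) : St_CLK := by
  intro lam τ b R h
  have ck := fun u => hCK (R u) (h.rad u).cont (h.rad u).pos
  have h4 : ∀ p u t, 0 ≤ t → t ≤ death τ u → clk (R (p ++ u)) t = clk (R u) t := by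
    intro p u t h0 ht
    unfold clk
    refine intervalIntegral.integral_congr fun y hy => ?_
    rw [uIcc_of_le h0] at hy
    show 1 / Real.sinh (R (p ++ u) y) ^ 2 = 1 / Real.sinh (R u y) ^ 2
    rw [old_append h.pos h.old p u hy.1 (hy.2.trans ht)]
  have h2 : ∀ u, birth (sig τ R) u = clk (R u) (birth τ u) := by
    intro u
    induction u with
    | nil => rw [birth_nil, birth_nil, clk_zero]
    | cons x u ih =>
      rw [birth_cons, birth_cons]
      have h5 := h4 [x] u (death τ u) (death_pos h.pos u).le le_rfl
      rw [List.singleton_append] at h5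
      rw [h5, death, ih, sig]
      ring
  have h3 : ∀ u, death (sig τ R) u = clk (R u) (death τ u) := by
    intro u
    rw [death, h2 u, sig]
    ring
  have h1 : ∀ u, 0 < sig τ R u := by
    intro u
    have := (ck u).2.1 (birth τ u) (death τ u) (birth_nonneg h.pos u) (birth_lt_death h.pos u)
    rw [sig]
    linarith
  refine ⟨h1, h2, h3, h4, ?_, ?_⟩
  · intro θ0 w x u t h0 ht
    have h5 := h4 [x] u t h0 ht
    rw [List.singleton_append] at h5
    unfold ang
    rw [h5, line_old]
    rw [h3 u]
    exact (ck u).1 t (death τ u) h0 ht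
  · intro θ0 w u
    unfold ang
    exact continuousOn_const.add ((line_continuous (sig τ R) w u).comp_continuousOn (ck u).2.2.1)

end Pool.Agent.helper62.HB
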